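import Mathlib

/-!
The Oberwolfach problem `OP(3, s, s)`: a general criterion. It is enough to give `s + 1` injective
placements of a triangle and two cycles of length `s` such that every pair of vertices is covered.
-/

set_option autoImplicit false

namespace Pool.Agent.V1149.OP3

open SimpleGraph Function

/-- the disjoint union of a triangle and two cycles of length `s` -/
abbrev TwoFactor (s : ℕ) : SimpleGraph (Fin 3 ⊕ (Fin s ⊕ Fin s)) :=
  cycleGraph 3 ⊕g (cycleGraph s ⊕g cycleGraph s)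

/-- the next vertex on the cycle -/
def nxt {n : ℕ} (a : Fin n) : Fin n := ⟨(a.val + 1) % n, Nat.mod_lt _ (by have := a.2; omega)⟩

theorem sub_val_eq_one {n : ℕ} (hn : 2 ≤ n) (a b : Fin n) : (b - a).val = 1 ↔ b = nxt a := by
  have ha := a.2
  have hb := b.2
  rw [Fin.ext_iff]
  simp only [nxt]
  rw [Fin.val_sub]
  rcases Nat.lt_or_ge (a.val + 1) n with h | h
  · rw [Nat.mod_eq_of_lt h]
    rcases Nat.lt_or_ge b.val a.val with h' | h'
    · rw [Nat.mod_eq_of_lt (by omega)]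
      omega
    · rw [show n - a.val + b.val = (b.val - a.val) + n by omega, Nat.add_mod_right,
        Nat.mod_eq_of_lt (by omega)]
      omega
  · have h2 : a.val + 1 = n := by omega
    rw [h2, Nat.mod_self]
    rcases Nat.lt_or_ge (n - a.val + b.val) n with h' | h'
    · rw [Nat.mod_eq_of_lt h']
      omega
    · rw [Nat.mod_eq_sub_mod h', Nat.mod_eq_of_lt (by omega)]
      omega

theorem cycle_adj {n : ℕ} (hn : 2 ≤ n) (a b : Fin n) :
    (cycleGraph n).Adj a b ↔ (b = nxt a ∨ a = nxt b) := by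
  rw [cycleGraph_adj', sub_val_eq_one hn, sub_val_eq_one hn]
  exact or_comm

/-- the next vertex on the 2-factor -/
def nx {s : ℕ} : Fin 3 ⊕ (Fin s ⊕ Fin s) → Fin 3 ⊕ (Fin s ⊕ Fin s) :=
  Sum.map nxt (Sum.map nxt nxt)

theorem factor_adj {s : ℕ} (hs : 3 ≤ s) (a b : Fin 3 ⊕ (Fin s ⊕ Fin s)) :
    (TwoFactor s).Adj a b ↔ (b = nx a ∨ a = nx b) := by
  rcases a with a | a | a <;> rcases b with b | b | b <;>
    simp [nx, cycle_adj (show 2 ≤ 3 by norm_num), cycle_adj (show 2 ≤ s by omega)]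

/-- **The criterion.** -/
theorem main {s : ℕ} (hs : 3 ≤ s) {V K : Type} [Fintype V] [Fintype K]
    (hV : Fintype.card V = 2 * s + 3) (hK : Fintype.card K = s + 1)
    (φ : K → Fin 3 ⊕ (Fin s ⊕ Fin s) → V) (hinj : ∀ k, Injective (φ k))
    (hcov : ∀ u v : V, u ≠ v → ∃ k a b, (TwoFactor s).Adj a b ∧ φ k a = u ∧ φ k b = v) :
    ∃ F : Fin (s + 1) → SimpleGraph (Fin (2 * s + 3)),
      (∀ i, Nonempty (F i ≃g TwoFactor s)) ∧ ∀ u v, u ≠ v → ∃! i, (F i).Adj u v := by
  classical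
  have hI : Fintype.card (Fin 3 ⊕ (Fin s ⊕ Fin s)) = 2 * s + 3 := by
    simp only [Fintype.card_sum, Fintype.card_fin]
    ring
  -- uniqueness, by counting
  have hne : ∀ k a, φ k a ≠ φ k (nx a) := by
    intro k a h
    have h1 := hinj k h
    have h2 : (TwoFactor s).Adj a (nx a) := (factor_adj hs _ _).2 (Or.inl rfl)
    exact (TwoFactor s).ne_of_adj h2 h1
  let Ψ : K × (Fin 3 ⊕ (Fin s ⊕ Fin s)) → {e : Sym2 V // ¬ e.IsDiag} :=
    fun p => ⟨s(φ p.1 p.2, φ p.1 (nx p.2)), by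
      rw [Sym2.mk_isDiag_iff]
      exact hne _ _⟩
  have hsurj : Surjective Ψ := by
    rintro ⟨e, he⟩
    induction e using Sym2.ind with
    | _ u v =>
      rw [Sym2.mk_isDiag_iff] at he
      obtain ⟨k, a, b, hab, hu, hv⟩ := hcov u v he
      rcases (factor_adj hs a b).1 hab with h | h
      · refine ⟨(k, a), ?_⟩
        apply Subtype.ext
        show s(φ k a, φ k (nx a)) = s(u, v)
        rw [← h, hu, hv]
      · refine ⟨(k, b), ?_⟩
        apply Subtype.ext
        show s(φ k b, φ k (nx b)) = s(u, v)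
        rw [← h, hu, hv]
        exact Sym2.eq_swap
  have hcard : Fintype.card (K × (Fin 3 ⊕ (Fin s ⊕ Fin s))) =
      Fintype.card {e : Sym2 V // ¬ e.IsDiag} := by
    rw [Fintype.card_prod, hK, hI, Sym2.card_subtype_not_diag, hV, Nat.choose_two_right]
    rw [show 2 * s + 3 - 1 = (s + 1) * 2 by omega, ← mul_assoc, Nat.mul_div_cancel _ (by norm_num)]
    ring
  have hbij : Bijective Ψ := (Fintype.bijective_iff_surjective_and_card Ψ).2 ⟨hsurj, hcard⟩
  have huniq : ∀ k l a b c d, (TwoFactor s).Adj a b → (TwoFactor s).Adj c d → φ k a = φ l c →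
      φ k b = φ l d → k = l := by
    intro k l a b c d hab hcd h1 h2
    have key : ∀ (k : K) (a b), (TwoFactor s).Adj a b →
        ∃ e, (Ψ (k, e)).1 = s(φ k a, φ k b) := by
      intro k a b hab
      rcases (factor_adj hs a b).1 hab with h | h
      · exact ⟨a, by show s(φ k a, φ k (nx a)) = _; rw [← h]⟩
      · exact ⟨b, by show s(φ k b, φ k (nx b)) = _; rw [← h]; exact Sym2.eq_swap⟩
    obtain ⟨e, he⟩ := key k a b hab
    obtain ⟨f, hf⟩ := key l c d hcd
    have : Ψ (k, e) = Ψ (l, f) := by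
      apply Subtype.ext
      rw [he, hf, h1, h2]
    have := hbij.1 this
    exact congrArg Prod.fst this
  -- transport
  let eV : V ≃ Fin (2 * s + 3) := Fintype.equivFinOfCardEq hV
  let eK : Fin (s + 1) ≃ K := (Fintype.equivFinOfCardEq hK).symm
  have hb : ∀ k, Bijective (φ k) := fun k =>
    (Fintype.bijective_iff_injective_and_card (φ k)).2 ⟨hinj k, by rw [hI, hV]⟩
  let E : Fin (s + 1) → (Fin 3 ⊕ (Fin s ⊕ Fin s)) ≃ Fin (2 * s + 3) := fun i =>
    (Equiv.ofBijective (φ (eK i)) (hb _)).trans eV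
  refine ⟨fun i => (TwoFactor s).map (E i).toEmbedding, fun i => ⟨(Iso.map (E i) _).symm⟩, ?_⟩
  have hadj : ∀ i (u v : Fin (2 * s + 3)), ((TwoFactor s).map (E i).toEmbedding).Adj u v ↔
      ∃ a b, (TwoFactor s).Adj a b ∧ φ (eK i) a = eV.symm u ∧ φ (eK i) b = eV.symm v := by
    intro i u v
    rw [SimpleGraph.map_adj]
    refine ⟨?_, ?_⟩
    · rintro ⟨a, b, hab, rfl, rfl⟩
      exact ⟨a, b, hab, by simp [E], by simp [E]⟩
    · rintro ⟨a, b, hab, h1, h2⟩
      exact ⟨a, b, hab, by simp [E, h1], by simp [E, h2]⟩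
  intro u v huv
  obtain ⟨k, a, b, hab, h1, h2⟩ := hcov (eV.symm u) (eV.symm v)
    (fun h => huv (eV.symm.injective h))
  refine ⟨eK.symm k, ?_, ?_⟩
  · show ((TwoFactor s).map (E (eK.symm k)).toEmbedding).Adj u v
    rw [hadj]
    exact ⟨a, b, hab, by simpa using h1, by simpa using h2⟩
  · intro j hj
    have hj' : ((TwoFactor s).map (E j).toEmbedding).Adj u v := hj
    rw [hadj] at hj'
    obtain ⟨c, d, hcd, h3, h4⟩ := hj'
    have := huniq (eK j) k c d a b hcd hab (by rw [h3, h1]) (by rw [h4, h2])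
    rw [← this]
    simp

/-- a placement given by three sequences -/
def place {V : Type} (s : ℕ) (T A B : ℕ → V) : Fin 3 ⊕ (Fin s ⊕ Fin s) → V :=
  Sum.elim (fun i => T i.val) (Sum.elim (fun i => A i.val) (fun i => B i.val))

theorem place_inj {V : Type} {s : ℕ} {T A B : ℕ → V}
    (hT : ∀ i j, i < j → j < 3 → T i ≠ T j) (hA : ∀ i j, i < j → j < s → A i ≠ A j)
    (hB : ∀ i j, i < j → j < s → B i ≠ B j) (hTA : ∀ i j, i < 3 → j < s → T i ≠ A j)
    (hTB : ∀ i j, i < 3 → j < s → T i ≠ B j) (hAB : ∀ i j, i < s → j < s → A i ≠ B j) :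
    Injective (place s T A B) := by
  have aux : ∀ (n : ℕ) (f : ℕ → V), (∀ i j, i < j → j < n → f i ≠ f j) →
      ∀ a b : Fin n, f a.val = f b.val → a = b := by
    intro n f h a b hab
    rcases lt_trichotomy a.val b.val with h' | h' | h'
    · exact absurd hab (h _ _ h' b.2)
    · exact Fin.ext h'
    · exact absurd hab.symm (h _ _ h' a.2)
  rintro (a | a | a) (b | b | b) h <;> simp only [place, Sum.elim_inl, Sum.elim_inr] at h
  · rw [aux 3 T hT a b h]
  · exact absurd h (hTA _ _ a.2 b.2)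
  · exact absurd h (hTB _ _ a.2 b.2)
  · exact absurd h.symm (hTA _ _ b.2 a.2)
  · rw [aux s A hA a b h]
  · exact absurd h (hAB _ _ a.2 b.2)
  · exact absurd h.symm (hTB _ _ b.2 a.2)
  · exact absurd h.symm (hAB _ _ b.2 a.2)
  · rw [aux s B hB a b h]

/-- two vertices are neighbours on the placed 2-factor -/
def Nb {V : Type} (s : ℕ) (T A B : ℕ → V) (u v : V) : Prop :=
  ∃ a b, (TwoFactor s).Adj a b ∧ place s T A B a = u ∧ place s T A B b = v

variable {V : Type} {s : ℕ} {T A B : ℕ → V}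

theorem Nb.symm {u v : V} (h : Nb s T A B u v) : Nb s T A B v u := by
  obtain ⟨a, b, h1, h2, h3⟩ := h
  exact ⟨b, a, h1.symm, h3, h2⟩

theorem nbT (i : ℕ) (hi : i < 3) : Nb s T A B (T i) (T ((i + 1) % 3)) :=
  ⟨Sum.inl ⟨i, hi⟩, Sum.inl ⟨(i + 1) % 3, Nat.mod_lt _ (by norm_num)⟩,
    sum_adj_inl.2 ((cycle_adj (by norm_num) _ _).2 (Or.inl rfl)), rfl, rfl⟩

theorem nbA (hs : 3 ≤ s) (i : ℕ) (hi : i < s) : Nb s T A B (A i) (A ((i + 1) % s)) :=
  ⟨Sum.inr (Sum.inl ⟨i, hi⟩), Sum.inr (Sum.inl ⟨(i + 1) % s, Nat.mod_lt _ (by omega)⟩),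
    sum_adj_inr.2 (sum_adj_inl.2 ((cycle_adj (by omega) _ _).2 (Or.inl rfl))), rfl, rfl⟩

theorem nbB (hs : 3 ≤ s) (i : ℕ) (hi : i < s) : Nb s T A B (B i) (B ((i + 1) % s)) :=
  ⟨Sum.inr (Sum.inr ⟨i, hi⟩), Sum.inr (Sum.inr ⟨(i + 1) % s, Nat.mod_lt _ (by omega)⟩),
    sum_adj_inr.2 (sum_adj_inr.2 ((cycle_adj (by omega) _ _).2 (Or.inl rfl))), rfl, rfl⟩

theorem nbA' (hs : 3 ≤ s) (i : ℕ) (hi : i + 1 < s) : Nb s T A B (A i) (A (i + 1)) := by
  have := nbA (T := T) (A := A) (B := B) hs i (by omega)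
  rwa [Nat.mod_eq_of_lt hi] at this

theorem nbB' (hs : 3 ≤ s) (i : ℕ) (hi : i + 1 < s) : Nb s T A B (B i) (B (i + 1)) := by
  have := nbB (T := T) (A := A) (B := B) hs i (by omega)
  rwa [Nat.mod_eq_of_lt hi] at this

theorem nbA0 (hs : 3 ≤ s) : Nb s T A B (A (s - 1)) (A 0) := by
  have := nbA (T := T) (A := A) (B := B) hs (s - 1) (by omega)
  rwa [show (s - 1 + 1) % s = 0 by rw [show s - 1 + 1 = s by omega, Nat.mod_self]] at this

theorem nbB0 (hs : 3 ≤ s) : Nb s T A B (B (s - 1)) (B 0) := by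
  have := nbB (T := T) (A := A) (B := B) hs (s - 1) (by omega)
  rwa [show (s - 1 + 1) % s = 0 by rw [show s - 1 + 1 = s by omega, Nat.mod_self]] at this

/-- moving a placement by a map -/
theorem Nb.map {W : Type} (f : V → W) {u v : V} (h : Nb s T A B u v) :
    Nb s (f ∘ T) (f ∘ A) (f ∘ B) (f u) (f v) := by
  obtain ⟨a, b, h1, h2, h3⟩ := h
  refine ⟨a, b, h1, ?_, ?_⟩
  · rw [← h2]
    rcases a with a | a | a <;> rfl
  · rw [← h3]
    rcases b with b | b | b <;> rfl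

theorem place_comp {W : Type} (f : V → W) :
    place s (f ∘ T) (f ∘ A) (f ∘ B) = f ∘ place s T A B := by
  funext a
  rcases a with a | a | a <;> rfl

/-- the criterion for sequences -/
theorem main_seq {s : ℕ} (hs : 3 ≤ s) {V K : Type} [Fintype V] [Fintype K]
    (hV : Fintype.card V = 2 * s + 3) (hK : Fintype.card K = s + 1)
    (T A B : K → ℕ → V) (hinj : ∀ k, Injective (place s (T k) (A k) (B k)))
    (hcov : ∀ u v : V, u ≠ v → ∃ k, Nb s (T k) (A k) (B k) u v) :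
    ∃ F : Fin (s + 1) → SimpleGraph (Fin (2 * s + 3)),
      (∀ i, Nonempty (F i ≃g TwoFactor s)) ∧ ∀ u v, u ≠ v → ∃! i, (F i).Adj u v :=
  main hs hV hK (fun k => place s (T k) (A k) (B k)) hinj fun u v huv => by
    obtain ⟨k, a, b, h⟩ := hcov u v huv
    exact ⟨k, a, b, h⟩

end Pool.Agent.V1149.OP3
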