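import Pool.Agent.V1149.OP3.Basic

/-!
`OP(3, s, s)` for odd `s`: the vertices are two copies of `ℤ_s` and three fixed points, and the
2-factors are one fixed 2-factor and the `s` translates of another one.
-/

set_option autoImplicit false

namespace Pool.Agent.V1149.OP3.Odd

open SimpleGraph Function

/-- two copies of `ℤ_s` and three fixed points -/
abbrev P (s : ℕ) : Type := (Bool × ZMod s) ⊕ Fin 3

/-- translation by `g`; the three points are fixed -/
def sh {s : ℕ} (g : ZMod s) : P s → P s := Sum.map (fun p => (p.1, p.2 + g)) id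

theorem sh_inj {s : ℕ} (g : ZMod s) : Injective (sh g) := by
  refine Sum.map_injective.2 ⟨?_, injective_id⟩
  rintro ⟨a, b⟩ ⟨c, d⟩ h
  simp only [Prod.mk.injEq, add_left_inj] at h
  rw [h.1, h.2]

@[simp] theorem sh_inl {s : ℕ} (g x : ZMod s) (b : Bool) :
    sh g (Sum.inl (b, x)) = Sum.inl (b, x + g) := rfl

@[simp] theorem sh_inr {s : ℕ} (g : ZMod s) (w : Fin 3) : sh g (Sum.inr w) = Sum.inr w := rfl

theorem cinj {M a b : ℕ} (ha : a < M) (hb : b < M) (h : (a : ZMod M) = b) : a = b := by
  rw [ZMod.natCast_eq_natCast_iff', Nat.mod_eq_of_lt ha, Nat.mod_eq_of_lt hb] at h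
  exact h

theorem zdiff {M x y d : ℕ} (h : y = x + d ∨ y + M = x + d) :
    (y : ZMod M) - (x : ZMod M) = (d : ZMod M) := by
  rw [sub_eq_iff_eq_add]
  rcases h with h | h
  · rw [h]; push_cast; ring
  · have := congrArg (Nat.cast (R := ZMod M)) h
    push_cast at this
    rw [ZMod.natCast_self, add_zero] at this
    rw [this]; ring

/-- the points by numbers below `2 s + 3` -/
def pt (s n : ℕ) : P s :=
  if n < s then Sum.inl (false, (n : ZMod s)) else if n < 2 * s then
    Sum.inl (true, ((n - s : ℕ) : ZMod s)) else Sum.inr (Fin.ofNat 3 (n - 2 * s))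

theorem pt_inj {s a b : ℕ} (ha : a < 2 * s + 3) (hb : b < 2 * s + 3) (h : pt s a = pt s b) :
    a = b := by
  unfold pt at h
  by_cases h1 : a < s
  · by_cases h2 : b < s
    · rw [if_pos h1, if_pos h2] at h
      exact cinj h1 h2 (by simpa using h)
    · rw [if_pos h1, if_neg h2] at h
      by_cases h3 : b < 2 * s
      · rw [if_pos h3] at h; simp at h
      · rw [if_neg h3] at h; simp at h
  · rw [if_neg h1] at h
    by_cases h2 : b < s
    · rw [if_pos h2] at h
      by_cases h3 : a < 2 * s
      · rw [if_pos h3] at h; simp at h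
      · rw [if_neg h3] at h; simp at h
    · rw [if_neg h2] at h
      by_cases h3 : a < 2 * s
      · rw [if_pos h3] at h
        by_cases h4 : b < 2 * s
        · rw [if_pos h4] at h
          have := cinj (M := s) (a := a - s) (b := b - s) (by omega) (by omega) (by simpa using h)
          omega
        · rw [if_neg h4] at h; simp at h
      · rw [if_neg h3] at h
        by_cases h4 : b < 2 * s
        · rw [if_pos h4] at h; simp at h
        · rw [if_neg h4] at h
          have h5 := Sum.inr_injective h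
          have h6 := congrArg Fin.val h5
          simp only [Fin.ofNat] at h6
          rw [Nat.mod_eq_of_lt (by omega), Nat.mod_eq_of_lt (by omega)] at h6
          omega

theorem pt_z {s n : ℕ} (h : n < s) : pt s n = Sum.inl (false, (n : ZMod s)) := if_pos h

theorem pt_o {s n : ℕ} (h : n < s) : pt s (s + n) = Sum.inl (true, (n : ZMod s)) := by
  unfold pt
  rw [if_neg (by omega), if_pos (by omega), Nat.add_sub_cancel_left]

theorem pt_w {s n : ℕ} : pt s (2 * s + n) = Sum.inr (Fin.ofNat 3 n) := by
  unfold pt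
  rw [if_neg (by omega), if_neg (by omega), Nat.add_sub_cancel_left]

/-- the graceful path -/
def zz (t i : ℕ) : ℕ := if i % 2 = 0 then i / 2 else t - 1 - i / 2

/-- the triangle -/
def cT (t i : ℕ) : ℕ :=
  if i = 0 then 2 * (2 * t + 1) else if i = 1 then t else (2 * t + 1) + 2 * t

/-- the first long cycle -/
def cA (t i : ℕ) : ℕ :=
  if i = 0 then 2 * (2 * t + 1) + 1 else if i ≤ t then zz t (t - i)
    else (2 * t + 1) + (t - 1 - zz t (i - t - 1))

/-- the second long cycle -/
def cB (t i : ℕ) : ℕ :=
  if i = 0 then 2 * (2 * t + 1) + 2 else if i % 2 = 1 then t + 1 + i / 2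
    else (2 * t + 1) + (2 * t - i / 2)

theorem zz_lt {t i : ℕ} (h : i < t) : zz t i < t := by
  unfold zz
  split_ifs <;> omega

theorem base_inj (t : ℕ) (ht : 1 ≤ t) :
    Injective (place (2 * t + 1) (fun i => pt (2 * t + 1) (cT t i))
      (fun i => pt (2 * t + 1) (cA t i)) (fun i => pt (2 * t + 1) (cB t i))) := by
  have bT : ∀ i, i < 3 → cT t i < 2 * (2 * t + 1) + 3 := by
    intro i hi; unfold cT; split_ifs <;> omega
  have bA : ∀ i, i < 2 * t + 1 → cA t i < 2 * (2 * t + 1) + 3 := by
    intro i hi; unfold cA zz; split_ifs <;> omega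
  have bB : ∀ i, i < 2 * t + 1 → cB t i < 2 * (2 * t + 1) + 3 := by
    intro i hi; unfold cB; split_ifs <;> omega
  refine place_inj ?_ ?_ ?_ ?_ ?_ ?_
  · intro i j hij hj h
    have h := pt_inj (bT i (by omega)) (bT j hj) h
    revert h
    unfold cT; split_ifs <;> omega
  · intro i j hij hj h
    have h := pt_inj (bA i (by omega)) (bA j hj) h
    revert h
    unfold cA zz; split_ifs <;> omega
  · intro i j hij hj h
    have h := pt_inj (bB i (by omega)) (bB j hj) h
    revert h
    unfold cB; split_ifs <;> omega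
  · intro i j hi hj h
    have h := pt_inj (bT i hi) (bA j hj) h
    revert h
    unfold cT cA zz; split_ifs <;> omega
  · intro i j hi hj h
    have h := pt_inj (bT i hi) (bB j hj) h
    revert h
    unfold cT cB; split_ifs <;> omega
  · intro i j hi hj h
    have h := pt_inj (bA i hi) (bB j hj) h
    revert h
    unfold cA cB zz; split_ifs <;> omega

section
variable {s : ℕ} {T A B : ℕ → P s}

theorem cov_pair {b b' : Bool} {p p' : ZMod s}
    (h1 : Nb s T A B (Sum.inl (b, p)) (Sum.inl (b', p'))) (u v : ZMod s)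
    (huv : v = u + (p' - p)) :
    ∃ g : ZMod s, Nb s (sh g ∘ T) (sh g ∘ A) (sh g ∘ B) (Sum.inl (b, u)) (Sum.inl (b', v)) := by
  refine ⟨u - p, ?_⟩
  have := h1.map (sh (u - p))
  rw [sh_inl, sh_inl, show p + (u - p) = u by ring, show p' + (u - p) = v by rw [huv]; ring] at this
  exact this

theorem cov_inf {b : Bool} {p : ZMod s} {w : Fin 3}
    (h1 : Nb s T A B (Sum.inl (b, p)) (Sum.inr w)) (u : ZMod s) :
    ∃ g : ZMod s, Nb s (sh g ∘ T) (sh g ∘ A) (sh g ∘ B) (Sum.inl (b, u)) (Sum.inr w) := by
  refine ⟨u - p, ?_⟩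
  have := h1.map (sh (u - p))
  rwa [sh_inl, sh_inr, show p + (u - p) = u by ring] at this

end

/-- two different elements of `ℤ_(2t+1)` differ by `d` or `-d` with `0 < d ≤ t` -/
theorem diff_cases {t : ℕ} (u v : ZMod (2 * t + 1)) (huv : u ≠ v) :
    ∃ d : ℕ, 0 < d ∧ d ≤ t ∧
      (v = u + (d : ZMod (2 * t + 1)) ∨ u = v + (d : ZMod (2 * t + 1))) := by
  have h1 := ZMod.val_lt (v - u)
  have h2 : (((v - u).val : ℕ) : ZMod (2 * t + 1)) = v - u := ZMod.natCast_zmod_val _
  have h3 : (v - u).val ≠ 0 := by
    intro h'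
    rw [ZMod.val_eq_zero] at h'
    exact huv (sub_eq_zero.1 h').symm
  rcases Nat.lt_or_ge t (v - u).val with h4 | h4
  · refine ⟨(2 * t + 1) - (v - u).val, by omega, by omega, Or.inr ?_⟩
    rw [Nat.cast_sub (by omega), ZMod.natCast_self, h2]
    ring
  · refine ⟨(v - u).val, by omega, h4, Or.inl ?_⟩
    rw [h2]
    ring

/-- **`OP(3, s, s)` has a solution for every odd `s ≥ 3`.** -/
theorem case_odd (t : ℕ) (ht : 1 ≤ t) :
    ∃ F : Fin (2 * t + 1 + 1) → SimpleGraph (Fin (2 * (2 * t + 1) + 3)),
      (∀ i, Nonempty (F i ≃g TwoFactor (2 * t + 1))) ∧ ∀ u v, u ≠ v → ∃! i, (F i).Adj u v := by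
  have hs : 3 ≤ 2 * t + 1 := by omega
  have hunit : ((t : ℕ) : ZMod (2 * t + 1)) * (-2) = 1 := by
    have : ((2 * t + 1 : ℕ) : ZMod (2 * t + 1)) = 0 := ZMod.natCast_self _
    push_cast at this
    linear_combination -this
  let T : ℕ → P (2 * t + 1) := fun i => pt (2 * t + 1) (cT t i)
  let A : ℕ → P (2 * t + 1) := fun i => pt (2 * t + 1) (cA t i)
  let B : ℕ → P (2 * t + 1) := fun i => pt (2 * t + 1) (cB t i)
  let T0 : ℕ → P (2 * t + 1) := fun i => Sum.inr (Fin.ofNat 3 i)
  let A0 : ℕ → P (2 * t + 1) := fun i =>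
    Sum.inl (false, ((t : ℕ) : ZMod (2 * t + 1)) * ((i : ℕ) : ZMod (2 * t + 1)))
  let B0 : ℕ → P (2 * t + 1) := fun i =>
    Sum.inl (true, ((t : ℕ) : ZMod (2 * t + 1)) * ((i : ℕ) : ZMod (2 * t + 1)))
  have hcan : ∀ i j : ℕ, i < j → j < 2 * t + 1 →
      ((t : ℕ) : ZMod (2 * t + 1)) * ((i : ℕ) : ZMod (2 * t + 1)) ≠
      ((t : ℕ) : ZMod (2 * t + 1)) * ((j : ℕ) : ZMod (2 * t + 1)) := by
    intro i j hij hj h
    have h' : ((i : ℕ) : ZMod (2 * t + 1)) = ((j : ℕ) : ZMod (2 * t + 1)) := by
      calc ((i : ℕ) : ZMod (2 * t + 1)) = (((t : ℕ) : ZMod (2 * t + 1)) * (-2)) * i := by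
            rw [hunit, one_mul]
        _ = (((t : ℕ) : ZMod (2 * t + 1)) * i) * (-2) := by ring
        _ = (((t : ℕ) : ZMod (2 * t + 1)) * j) * (-2) := by rw [h]
        _ = (((t : ℕ) : ZMod (2 * t + 1)) * (-2)) * j := by ring
        _ = j := by rw [hunit, one_mul]
    have := cinj (by omega) hj h'
    omega
  have hbase0 : Injective (place (2 * t + 1) T0 A0 B0) := by
    refine place_inj ?_ ?_ ?_ ?_ ?_ ?_
    · intro i j hij hj h
      have h1 := congrArg Fin.val (Sum.inr_injective h)
      simp only [Fin.ofNat] at h1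
      omega
    · intro i j hij hj h
      have h1 : ((t : ℕ) : ZMod (2 * t + 1)) * ((i : ℕ) : ZMod (2 * t + 1)) =
        ((t : ℕ) : ZMod (2 * t + 1)) * ((j : ℕ) : ZMod (2 * t + 1)) :=
          congrArg Prod.snd (Sum.inl_injective h)
      exact hcan i j hij hj h1
    · intro i j hij hj h
      have h1 : ((t : ℕ) : ZMod (2 * t + 1)) * ((i : ℕ) : ZMod (2 * t + 1)) =
        ((t : ℕ) : ZMod (2 * t + 1)) * ((j : ℕ) : ZMod (2 * t + 1)) :=
          congrArg Prod.snd (Sum.inl_injective h)
      exact hcan i j hij hj h1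
    · intro i j hi hj h
      simp [T0, A0] at h
    · intro i j hi hj h
      simp [T0, B0] at h
    · intro i j hi hj h
      simp [A0, B0] at h
  refine main_seq (K := Option (ZMod (2 * t + 1))) hs ?_ ?_
    (fun k => k.elim T0 (fun g => sh g ∘ T)) (fun k => k.elim A0 (fun g => sh g ∘ A))
    (fun k => k.elim B0 (fun g => sh g ∘ B)) ?_ ?_
  · rw [Fintype.card_sum, Fintype.card_prod, ZMod.card, Fintype.card_bool, Fintype.card_fin]
  · rw [Fintype.card_option, ZMod.card]
  · rintro (_ | g)
    · exact hbase0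
    · show Injective (place (2 * t + 1) (sh g ∘ T) (sh g ∘ A) (sh g ∘ B))
      rw [place_comp]
      exact (sh_inj g).comp (base_inj t ht)
  · -- the rotational factors
    have hrot : ∀ u v : P (2 * t + 1), (∃ g : ZMod (2 * t + 1), Nb (2 * t + 1) (sh g ∘ T)
        (sh g ∘ A) (sh g ∘ B) u v) → ∃ k : Option (ZMod (2 * t + 1)), Nb (2 * t + 1)
        (k.elim T0 (fun g => sh g ∘ T)) (k.elim A0 (fun g => sh g ∘ A))
        (k.elim B0 (fun g => sh g ∘ B)) u v := fun u v ⟨g, hg⟩ => ⟨some g, hg⟩
    -- infinite points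
    have hinf : ∀ (b : Bool) (u : ZMod (2 * t + 1)) (w : Fin 3), ∃ g : ZMod (2 * t + 1),
        Nb (2 * t + 1) (sh g ∘ T) (sh g ∘ A) (sh g ∘ B) (Sum.inl (b, u)) (Sum.inr w) := by
      intro b u w
      have hT0 : T 0 = Sum.inr 0 := by
        show pt (2 * t + 1) (cT t 0) = _
        rw [show cT t 0 = 2 * (2 * t + 1) + 0 by simp [cT], pt_w]; rfl
      have hT1 : T 1 = Sum.inl (false, ((t : ℕ) : ZMod (2 * t + 1))) := by
        show pt (2 * t + 1) (cT t 1) = _
        rw [show cT t 1 = t by simp [cT], pt_z (by omega)]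
      have hT2 : T 2 = Sum.inl (true, ((2 * t : ℕ) : ZMod (2 * t + 1))) := by
        show pt (2 * t + 1) (cT t 2) = _
        rw [show cT t 2 = (2 * t + 1) + 2 * t by simp [cT], pt_o (by omega)]
      have hA0 : A 0 = Sum.inr 1 := by
        show pt (2 * t + 1) (cA t 0) = _
        rw [show cA t 0 = 2 * (2 * t + 1) + 1 by simp [cA], pt_w]; rfl
      have hA1 : A 1 = Sum.inl (false, ((zz t (t - 1) : ℕ) : ZMod (2 * t + 1))) := by
        show pt (2 * t + 1) (cA t 1) = _
        have := zz_lt (t := t) (i := t - 1) (by omega)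
        rw [show cA t 1 = zz t (t - 1) by unfold cA; rw [if_neg (by omega), if_pos (by omega)],
          pt_z (by omega)]
      have hA2 : A (2 * t) = Sum.inl (true, ((t - 1 - zz t (t - 1) : ℕ) : ZMod (2 * t + 1))) := by
        show pt (2 * t + 1) (cA t (2 * t)) = _
        rw [show cA t (2 * t) = (2 * t + 1) + (t - 1 - zz t (t - 1)) by
          unfold cA; rw [if_neg (by omega), if_neg (by omega), show 2 * t - t - 1 = t - 1 by omega],
          pt_o (by omega)]
      have hB0 : B 0 = Sum.inr 2 := by
        show pt (2 * t + 1) (cB t 0) = _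
        rw [show cB t 0 = 2 * (2 * t + 1) + 2 by simp [cB], pt_w]; rfl
      have hB1 : B 1 = Sum.inl (false, ((t + 1 : ℕ) : ZMod (2 * t + 1))) := by
        show pt (2 * t + 1) (cB t 1) = _
        rw [show cB t 1 = t + 1 by simp [cB], pt_z (by omega)]
      have hB2 : B (2 * t) = Sum.inl (true, ((t : ℕ) : ZMod (2 * t + 1))) := by
        show pt (2 * t + 1) (cB t (2 * t)) = _
        rw [show cB t (2 * t) = (2 * t + 1) + t by
          unfold cB; rw [if_neg (by omega), if_neg (by omega)]; omega, pt_o (by omega)]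
      fin_cases w
      · cases b
        · have := nbT (s := 2 * t + 1) (T := T) (A := A) (B := B) 0 (by norm_num)
          rw [show (0 + 1) % 3 = 1 by norm_num, hT0, hT1] at this
          exact cov_inf this.symm u
        · have := nbT (s := 2 * t + 1) (T := T) (A := A) (B := B) 2 (by norm_num)
          rw [show (2 + 1) % 3 = 0 by norm_num, hT0, hT2] at this
          exact cov_inf this u
      · cases b
        · have := nbA' (T := T) (A := A) (B := B) hs 0 (by omega)
          rw [show 0 + 1 = 1 by norm_num, hA0, hA1] at this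
          exact cov_inf this.symm u
        · have := nbA0 (T := T) (A := A) (B := B) hs
          rw [show 2 * t + 1 - 1 = 2 * t by omega, hA0, hA2] at this
          exact cov_inf this u
      · cases b
        · have := nbB' (T := T) (A := A) (B := B) hs 0 (by omega)
          rw [show 0 + 1 = 1 by norm_num, hB0, hB1] at this
          exact cov_inf this.symm u
        · have := nbB0 (T := T) (A := A) (B := B) hs
          rw [show 2 * t + 1 - 1 = 2 * t by omega, hB0, hB2] at this
          exact cov_inf this u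
    -- pure differences
    have hA_z : ∀ i, 1 ≤ i → i ≤ t →
        A i = Sum.inl (false, ((zz t (t - i) : ℕ) : ZMod (2 * t + 1))) := by
      intro i h1 h2
      show pt (2 * t + 1) (cA t i) = _
      have := zz_lt (t := t) (i := t - i) (by omega)
      rw [show cA t i = zz t (t - i) by unfold cA; rw [if_neg (by omega), if_pos h2],
        pt_z (by omega)]
    have hA_o : ∀ i, t < i → i ≤ 2 * t →
        A i = Sum.inl (true, ((t - 1 - zz t (i - t - 1) : ℕ) : ZMod (2 * t + 1))) := by
      intro i h1 h2
      show pt (2 * t + 1) (cA t i) = _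
      rw [show cA t i = (2 * t + 1) + (t - 1 - zz t (i - t - 1)) by
        unfold cA; rw [if_neg (by omega), if_neg (by omega)], pt_o (by omega)]
    have hB_z : ∀ i, i % 2 = 1 → i ≤ 2 * t →
        B i = Sum.inl (false, ((t + 1 + i / 2 : ℕ) : ZMod (2 * t + 1))) := by
      intro i h1 h2
      show pt (2 * t + 1) (cB t i) = _
      rw [show cB t i = t + 1 + i / 2 by unfold cB; rw [if_neg (by omega), if_pos h1],
        pt_z (by omega)]
    have hB_o : ∀ i, i % 2 = 0 → 1 ≤ i → i ≤ 2 * t →
        B i = Sum.inl (true, ((2 * t - i / 2 : ℕ) : ZMod (2 * t + 1))) := by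
      intro i h1 h2 h3
      show pt (2 * t + 1) (cB t i) = _
      rw [show cB t i = (2 * t + 1) + (2 * t - i / 2) by
        unfold cB; rw [if_neg (by omega), if_neg (by omega)], pt_o (by omega)]
    have hpure : ∀ (b : Bool) (u v : ZMod (2 * t + 1)) (d : ℕ), 0 < d → d ≤ t →
        v = u + ((d : ℕ) : ZMod (2 * t + 1)) → ∃ k : Option (ZMod (2 * t + 1)), Nb (2 * t + 1)
        (k.elim T0 (fun g => sh g ∘ T)) (k.elim A0 (fun g => sh g ∘ A))
        (k.elim B0 (fun g => sh g ∘ B)) (Sum.inl (b, u)) (Sum.inl (b, v)) := by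
      intro b u v d hd0 hdt huv
      rcases Nat.lt_or_ge d t with hlt | hge
      · apply hrot
        cases b
        · have e := nbA' (T := T) (A := A) (B := B) hs d (by omega)
          rw [hA_z d hd0 hlt.le, hA_z (d + 1) (by omega) (by omega)] at e
          have hz : zz t (t - (d + 1)) = zz t (t - d) + d ∨ zz t (t - d) = zz t (t - (d + 1)) + d := by
            unfold zz; split_ifs <;> omega
          rcases hz with hz | hz
          · refine cov_pair e u v ?_
            rw [zdiff (Or.inl hz), huv]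
          · refine cov_pair e.symm u v ?_
            rw [zdiff (Or.inl hz), huv]
        · have e := nbA' (T := T) (A := A) (B := B) hs (2 * t - d) (by omega)
          rw [hA_o (2 * t - d) (by omega) (by omega), hA_o (2 * t - d + 1) (by omega) (by omega)]
            at e
          have hz : (t - 1 - zz t (2 * t - d + 1 - t - 1)) = (t - 1 - zz t (2 * t - d - t - 1)) + d ∨
            (t - 1 - zz t (2 * t - d - t - 1)) = (t - 1 - zz t (2 * t - d + 1 - t - 1)) + d := by
            unfold zz; split_ifs <;> omega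
          rcases hz with hz | hz
          · refine cov_pair e u v ?_
            rw [zdiff (Or.inl hz), huv]
          · refine cov_pair e.symm u v ?_
            rw [zdiff (Or.inl hz), huv]
      · have hdt' : d = t := by omega
        refine ⟨none, ?_⟩
        show Nb (2 * t + 1) T0 A0 B0 _ _
        have hi := ZMod.val_lt (u * (-2))
        have hi2 : (((u * (-2)).val : ℕ) : ZMod (2 * t + 1)) = u * (-2) := ZMod.natCast_zmod_val _
        have h1 : ((t : ℕ) : ZMod (2 * t + 1)) * (((u * (-2)).val : ℕ) : ZMod (2 * t + 1)) = u := by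
          rw [hi2]
          linear_combination u * hunit
        have h2 : ((t : ℕ) : ZMod (2 * t + 1)) *
            ((((u * (-2)).val + 1) % (2 * t + 1) : ℕ) : ZMod (2 * t + 1)) = v := by
          rw [ZMod.natCast_mod]
          push_cast
          rw [mul_add, h1, huv, hdt', mul_one]
        cases b
        · have e := nbA (T := T0) (A := A0) (B := B0) hs _ hi
          have e1 : A0 (u * (-2)).val = Sum.inl (false, u) := by
            show Sum.inl (false, _) = _
            rw [h1]
          have e2 : A0 (((u * (-2)).val + 1) % (2 * t + 1)) = Sum.inl (false, v) := by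
            show Sum.inl (false, _) = _
            rw [h2]
          rwa [e1, e2] at e
        · have e := nbB (T := T0) (A := A0) (B := B0) hs _ hi
          have e1 : B0 (u * (-2)).val = Sum.inl (true, u) := by
            show Sum.inl (true, _) = _
            rw [h1]
          have e2 : B0 (((u * (-2)).val + 1) % (2 * t + 1)) = Sum.inl (true, v) := by
            show Sum.inl (true, _) = _
            rw [h2]
          rwa [e1, e2] at e
    -- mixed differences
    have hmix : ∀ u v : ZMod (2 * t + 1), ∃ g : ZMod (2 * t + 1), Nb (2 * t + 1) (sh g ∘ T)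
        (sh g ∘ A) (sh g ∘ B) (Sum.inl (false, u)) (Sum.inl (true, v)) := by
      intro u v
      obtain ⟨D, hD, hDv⟩ : ∃ D : ℕ, D < 2 * t + 1 ∧ v = u + ((D : ℕ) : ZMod (2 * t + 1)) := by
        refine ⟨(v - u).val, ZMod.val_lt _, ?_⟩
        rw [ZMod.natCast_zmod_val]
        ring
      -- edges of the second cycle
      have hBe : ∀ i, 1 ≤ i → i + 1 ≤ 2 * t → (i = t - 1 - D ∧ D + 2 ≤ t ∨ i = 3 * t - D ∧ t < D) →
          ∃ g : ZMod (2 * t + 1), Nb (2 * t + 1) (sh g ∘ T)
          (sh g ∘ A) (sh g ∘ B) (Sum.inl (false, u)) (Sum.inl (true, v)) := by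
        intro i h1 h2 h3
        have e := nbB' (T := T) (A := A) (B := B) hs i (by omega)
        rcases Nat.mod_two_eq_zero_or_one i with h4 | h4
        · rw [hB_o i h4 h1 (by omega), hB_z (i + 1) (by omega) (by omega)] at e
          refine cov_pair e.symm u v ?_
          rw [zdiff (d := D) (by omega), hDv]
        · rw [hB_z i h4 (by omega), hB_o (i + 1) (by omega) (by omega) (by omega)] at e
          refine cov_pair e u v ?_
          rw [zdiff (d := D) (by omega), hDv]
      rcases Nat.lt_trichotomy D t with h | h | h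
      · rcases Nat.lt_or_ge (D + 1) t with h' | h'
        · exact hBe (t - 1 - D) (by omega) (by omega) (Or.inl ⟨rfl, by omega⟩)
        · have e := nbA' (T := T) (A := A) (B := B) hs t (by omega)
          rw [hA_z t ht le_rfl, hA_o (t + 1) (by omega) (by omega)] at e
          refine cov_pair e u v ?_
          rw [zdiff (d := D) (Or.inl (by unfold zz; split_ifs <;> omega)), hDv]
      · have e := nbT (s := 2 * t + 1) (T := T) (A := A) (B := B) 1 (by norm_num)
        have hT1 : T 1 = Sum.inl (false, ((t : ℕ) : ZMod (2 * t + 1))) := by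
          show pt (2 * t + 1) (cT t 1) = _
          rw [show cT t 1 = t by simp [cT], pt_z (by omega)]
        have hT2 : T 2 = Sum.inl (true, ((2 * t : ℕ) : ZMod (2 * t + 1))) := by
          show pt (2 * t + 1) (cT t 2) = _
          rw [show cT t 2 = (2 * t + 1) + 2 * t by simp [cT], pt_o (by omega)]
        rw [show (1 + 1) % 3 = 2 by norm_num, hT1, hT2] at e
        refine cov_pair e u v ?_
        rw [zdiff (d := D) (Or.inl (by omega)), hDv]
      · exact hBe (3 * t - D) (by omega) (by omega) (Or.inr ⟨rfl, h⟩)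
    rintro (⟨b, u⟩ | w) (⟨b', v⟩ | w') huv
    · by_cases hb : b = b'
      · subst hb
        obtain ⟨d, h1, h2, h3 | h3⟩ := diff_cases u v (fun h => huv (by rw [h]))
        · exact hpure b u v d h1 h2 h3
        · obtain ⟨k, hk⟩ := hpure b v u d h1 h2 h3
          exact ⟨k, hk.symm⟩
      · cases b <;> cases b'
        · exact absurd rfl hb
        · exact hrot _ _ (hmix u v)
        · obtain ⟨g, hg⟩ := hmix v u
          exact hrot _ _ ⟨g, hg.symm⟩
        · exact absurd rfl hb
    · exact hrot _ _ (hinf b u w')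
    · obtain ⟨g, hg⟩ := hinf b' v w
      exact hrot _ _ ⟨g, hg.symm⟩
    · refine ⟨none, ?_⟩
      show Nb (2 * t + 1) T0 A0 B0 _ _
      have e0 := nbT (s := 2 * t + 1) (T := T0) (A := A0) (B := B0) 0 (by norm_num)
      have e1 := nbT (s := 2 * t + 1) (T := T0) (A := A0) (B := B0) 1 (by norm_num)
      have e2 := nbT (s := 2 * t + 1) (T := T0) (A := A0) (B := B0) 2 (by norm_num)
      have f0 : T0 0 = Sum.inr 0 := rfl
      have f1 : T0 1 = Sum.inr 1 := rfl
      have f2 : T0 2 = Sum.inr 2 := rfl
      rw [show (0 + 1) % 3 = 1 by norm_num, f0, f1] at e0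
      rw [show (1 + 1) % 3 = 2 by norm_num, f1, f2] at e1
      rw [show (2 + 1) % 3 = 0 by norm_num, f2, f0] at e2
      fin_cases w <;> fin_cases w'
      · exact absurd rfl huv
      · exact e0
      · exact e2.symm
      · exact e0.symm
      · exact absurd rfl huv
      · exact e1
      · exact e2
      · exact e1.symm
      · exact absurd rfl huv

end Pool.Agent.V1149.OP3.Odd
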