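import Pool.Agent.V1149.OP3.Two
import Pool.Agent.V1149.OP3.Odd

/-!
`OP(3, s, s)` for `s ≡ 2 mod 4`: the sequences, and the theorem for all `s ≥ 3`.
-/

set_option autoImplicit false

namespace Pool.Agent.V1149.OP3

open SimpleGraph Function

/-- path labels, `r = 4 q + 3` -/
def p3 (q i : ℕ) : ℕ := 4 * q + 4 + (if i % 2 = 0 then i / 2 else 4 * q + 1 - i / 2)

/-- cycle labels, `r = 4 q + 3` -/
def b3 (q i : ℕ) : ℕ :=
  if i % 2 = 0 then (if i ≤ 2 * q + 1 then i / 2 else i / 2 + 1)
    else 4 * q + 3 - i / 2 + (8 * q + 6)

theorem case_three (q : ℕ) :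
    ∃ F : Fin (8 * q + 6 + 1) → SimpleGraph (Fin (2 * (8 * q + 6) + 3)),
      (∀ i, Nonempty (F i ≃g TwoFactor (8 * q + 6))) ∧ ∀ u v, u ≠ v → ∃! i, (F i).Adj u v := by
  refine of_two (r := 4 * q + 3) (by omega) (by ring) (q + 1) (p3 q) (b3 q) (2 * q + 1)
    (4 * q + 1) q (by ring) (by omega) ?_ ?_ ?_ ?_ ?_ ?_ ?_ ?_
  · intro i hi
    unfold p3
    split_ifs <;> first | omega | contradiction
  · intro i hi
    unfold b3
    split_ifs <;> first | omega | contradiction
  · intro i j hij hj
    unfold Dif p3
    split_ifs <;> first | omega | contradiction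
  · intro i j hij hj
    unfold Dif b3
    split_ifs <;> first | omega | contradiction
  · intro i j hi hj
    unfold Dif p3 b3
    split_ifs <;> first | omega | contradiction
  · intro i hi
    unfold Dif p3
    split_ifs <;> first | omega | contradiction
  · intro i hi
    unfold Dif b3
    split_ifs <;> first | omega | contradiction
  · intro d h1 h2 h3
    rcases Nat.lt_or_ge d (4 * q + 2) with h | h
    · left
      refine ⟨4 * q + 1 - d, by omega, ?_⟩
      unfold Gap p3
      split_ifs <;> first | omega | contradiction
    · right
      rcases Nat.lt_trichotomy d (6 * q + 4) with h' | h' | h'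
      · left
        refine ⟨d - (4 * q + 3), by omega, ?_⟩
        unfold Gap b3
        split_ifs <;> first | omega | contradiction
      · right
        unfold Gap b3
        split_ifs <;> first | omega | contradiction
      · left
        refine ⟨d - (4 * q + 4), by omega, ?_⟩
        unfold Gap b3
        split_ifs <;> first | omega | contradiction

/-- the core of the path, `r = 4 q + 1` -/
def core (q i : ℕ) : ℕ :=
  if i % 2 = 0 then i / 2 else if i + 1 < 2 * q then 4 * q - 1 - i / 2 else 4 * q - 2 - i / 2

/-- cycle labels, `r = 4 q + 1`, without the low label `k` -/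
def b1 (q k i : ℕ) : ℕ :=
  if i = 0 then 0 else if i = 1 then 12 * q + 3 else
    if i % 2 = 0 then (if i < 2 * k then i / 2 else i / 2 + 1) + (8 * q + 2)
    else 4 * q + 1 - i / 2

/-- path labels for even `q` -/
def pe (q i : ℕ) : ℕ := if i = 0 then 15 * q + 4 else 4 * q + 2 + core q (i - 1)

/-- path labels for odd `q` -/
def po (q i : ℕ) : ℕ := if i = 4 * q - 1 then 15 * q + 4 else 4 * q + 2 + core q i

theorem case_one_even (a : ℕ) (ha : 1 ≤ a) :
    ∃ F : Fin (16 * a + 2 + 1) → SimpleGraph (Fin (2 * (16 * a + 2) + 3)),
      (∀ i, Nonempty (F i ≃g TwoFactor (16 * a + 2))) ∧ ∀ u v, u ≠ v → ∃! i, (F i).Adj u v := by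
  refine of_two (r := 8 * a + 1) (by omega) (by ring) (a + 1) (pe (2 * a)) (b1 (2 * a) (a + 1))
    (2 * (2 * a) + 1) (4 * (2 * a) + 3) (2 * a + 1) (by ring) (by omega) ?_ ?_ ?_ ?_ ?_ ?_ ?_ ?_
  · intro i hi
    unfold pe core
    split_ifs <;> first | omega | contradiction
  · intro i hi
    unfold b1
    split_ifs <;> first | omega | contradiction
  · intro i j hij hj
    unfold Dif pe core
    split_ifs <;> first | omega | contradiction
  · intro i j hij hj
    unfold Dif b1
    split_ifs <;> first | omega | contradiction
  · intro i j hi hj
    unfold Dif pe core b1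
    split_ifs <;> first | omega | contradiction
  · intro i hi
    unfold Dif pe core
    split_ifs <;> first | omega | contradiction
  · intro i hi
    unfold Dif b1
    split_ifs <;> first | omega | contradiction
  · intro d h1 h2 h3
    rcases Nat.lt_or_ge d (8 * a) with h | h
    · rcases Nat.lt_trichotomy d (4 * a + 1) with h' | h' | h'
      · left
        refine ⟨8 * a - 1 - d, by omega, ?_⟩
        unfold Gap pe core
        split_ifs <;> first | omega | contradiction
      · right; right
        unfold Gap b1
        split_ifs <;> first | omega | contradiction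
      · left
        refine ⟨8 * a - d, by omega, ?_⟩
        unfold Gap pe core
        split_ifs <;> first | omega | contradiction
    · rcases Nat.lt_trichotomy d (8 * a + 1) with h' | h' | h'
      · right; left
        refine ⟨1, by omega, ?_⟩
        unfold Gap b1
        split_ifs <;> first | omega | contradiction
      · right; left
        refine ⟨0, by omega, ?_⟩
        unfold Gap b1
        split_ifs <;> first | omega | contradiction
      · rcases Nat.lt_trichotomy d (10 * a + 2) with h5 | h5 | h5
        · right; left
          refine ⟨d - (8 * a + 1), by omega, ?_⟩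
          unfold Gap b1
          split_ifs <;> first | omega | contradiction
        · left
          refine ⟨0, by omega, ?_⟩
          unfold Gap pe core
          split_ifs <;> first | omega | contradiction
        · right; left
          refine ⟨d - (8 * a + 2), by omega, ?_⟩
          unfold Gap b1
          split_ifs <;> first | omega | contradiction

theorem case_one_odd (a : ℕ) :
    ∃ F : Fin (16 * a + 10 + 1) → SimpleGraph (Fin (2 * (16 * a + 10) + 3)),
      (∀ i, Nonempty (F i ≃g TwoFactor (16 * a + 10))) ∧ ∀ u v, u ≠ v → ∃! i, (F i).Adj u v := by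
  refine of_two (r := 8 * a + 5) (by omega) (by ring) (3 * a + 2) (po (2 * a + 1))
    (b1 (2 * a + 1) (3 * a + 2)) (2 * (2 * a + 1) + 1) (4 * (2 * a + 1) + 3) (2 * a + 2) (by ring)
    (by omega) ?_ ?_ ?_ ?_ ?_ ?_ ?_ ?_
  · intro i hi
    unfold po core
    split_ifs <;> first | omega | contradiction
  · intro i hi
    unfold b1
    split_ifs <;> first | omega | contradiction
  · intro i j hij hj
    unfold Dif po core
    split_ifs <;> first | omega | contradiction
  · intro i j hij hj
    unfold Dif b1
    split_ifs <;> first | omega | contradiction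
  · intro i j hi hj
    unfold Dif po core b1
    split_ifs <;> first | omega | contradiction
  · intro i hi
    unfold Dif po core
    split_ifs <;> first | omega | contradiction
  · intro i hi
    unfold Dif b1
    split_ifs <;> first | omega | contradiction
  · intro d h1 h2 h3
    rcases Nat.lt_or_ge d (8 * a + 4) with h | h
    · rcases Nat.lt_trichotomy d (4 * a + 3) with h' | h' | h'
      · left
        refine ⟨8 * a + 2 - d, by omega, ?_⟩
        unfold Gap po core
        split_ifs <;> first | omega | contradiction
      · right; right
        unfold Gap b1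
        split_ifs <;> first | omega | contradiction
      · left
        refine ⟨8 * a + 3 - d, by omega, ?_⟩
        unfold Gap po core
        split_ifs <;> first | omega | contradiction
    · rcases Nat.lt_trichotomy d (8 * a + 5) with h' | h' | h'
      · right; left
        refine ⟨1, by omega, ?_⟩
        unfold Gap b1
        split_ifs <;> first | omega | contradiction
      · right; left
        refine ⟨0, by omega, ?_⟩
        unfold Gap b1
        split_ifs <;> first | omega | contradiction
      · rcases Nat.lt_trichotomy d (14 * a + 8) with h5 | h5 | h5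
        · right; left
          refine ⟨d - (8 * a + 5), by omega, ?_⟩
          unfold Gap b1
          split_ifs <;> first | omega | contradiction
        · left
          refine ⟨8 * a + 2, by omega, ?_⟩
          unfold Gap po core
          split_ifs <;> first | omega | contradiction
        · right; left
          refine ⟨d - (8 * a + 6), by omega, ?_⟩
          unfold Gap b1
          split_ifs <;> first | omega | contradiction

/-- **`OP(3, s, s)` has a solution for every `s ≥ 3`.** -/
theorem all_cases (s : ℕ) (hs : 3 ≤ s) :
    ∃ F : Fin (s + 1) → SimpleGraph (Fin (2 * s + 3)),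
      (∀ i, Nonempty (F i ≃g TwoFactor s)) ∧ ∀ u v, u ≠ v → ∃! i, (F i).Adj u v := by
  rcases Nat.mod_two_eq_zero_or_one s with h | h
  · have : s % 4 = 0 ∨ s % 8 = 6 ∨ s % 16 = 2 ∨ s % 16 = 10 := by omega
    rcases this with h | h | h | h
    · obtain ⟨q, rfl⟩ : ∃ q, s = 4 * q := ⟨s / 4, by omega⟩
      exact case_zero q (by omega)
    · obtain ⟨q, rfl⟩ : ∃ q, s = 8 * q + 6 := ⟨s / 8, by omega⟩
      exact case_three q
    · obtain ⟨q, rfl⟩ : ∃ q, s = 16 * q + 2 := ⟨s / 16, by omega⟩
      exact case_one_even q (by omega)
    · obtain ⟨q, rfl⟩ : ∃ q, s = 16 * q + 10 := ⟨s / 16, by omega⟩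
      exact case_one_odd q
  · obtain ⟨t, rfl⟩ : ∃ t, s = 2 * t + 1 := ⟨s / 2, by omega⟩
    exact Odd.case_odd t (by omega)

end Pool.Agent.V1149.OP3
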