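import Pool.Agent.V1149.OP3.Basic

/-!
`OP(3, s, s)` for even `s`: tools for factors fixed by adding half of the modulus, and the case
`4 ∣ s`, from a graceful labelling of the cycle of length `s`.
-/

set_option autoImplicit false

namespace Pool.Agent.V1149.OP3

open SimpleGraph Function

/-- translation by `g`; the points of `W` are fixed -/
def sh {M : ℕ} {W : Type} (g : ZMod M) : ZMod M ⊕ W → ZMod M ⊕ W := Sum.map (· + g) id

theorem sh_inj {M : ℕ} {W : Type} (g : ZMod M) : Injective (sh (W := W) g) :=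
  Sum.map_injective.2 ⟨add_left_injective g, injective_id⟩

@[simp] theorem sh_inl {M : ℕ} {W : Type} (g x : ZMod M) :
    sh (W := W) g (Sum.inl x) = Sum.inl (x + g) := rfl

@[simp] theorem sh_inr {M : ℕ} {W : Type} (g : ZMod M) (w : W) :
    sh g (Sum.inr w) = Sum.inr w := rfl

theorem cinj {M a b : ℕ} (ha : a < M) (hb : b < M) (h : (a : ZMod M) = b) : a = b := by
  rw [ZMod.natCast_eq_natCast_iff', Nat.mod_eq_of_lt ha, Nat.mod_eq_of_lt hb] at h
  exact h

theorem half {h : ℕ} (hh : 0 < h) (u p : ZMod (2 * h)) :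
    ∃ g : Fin h, p + ((g : ℕ) : ZMod (2 * h)) = u ∨
      (p + (h : ZMod (2 * h))) + ((g : ℕ) : ZMod (2 * h)) = u := by
  haveI : NeZero (2 * h) := ⟨by omega⟩
  have h1 := ZMod.val_lt (u - p)
  have h2 : (((u - p).val : ℕ) : ZMod (2 * h)) = u - p := ZMod.natCast_zmod_val _
  rcases Nat.lt_or_ge (u - p).val h with h3 | h3
  · refine ⟨⟨_, h3⟩, Or.inl ?_⟩
    show p + (((u - p).val : ℕ) : ZMod (2 * h)) = u
    rw [h2]
    ring
  · refine ⟨⟨(u - p).val - h, by omega⟩, Or.inr ?_⟩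
    show p + (h : ZMod (2 * h)) + (((u - p).val - h : ℕ) : ZMod (2 * h)) = u
    rw [Nat.cast_sub h3, h2]
    ring

theorem two_half {h : ℕ} : (h : ZMod (2 * h)) + (h : ZMod (2 * h)) = 0 := by
  have : ((2 * h : ℕ) : ZMod (2 * h)) = 0 := ZMod.natCast_self _
  rw [← this]
  push_cast
  ring

section
variable {h s : ℕ} {W : Type} {T A B : ℕ → ZMod (2 * h) ⊕ W}

theorem cov_pair (hh : 0 < h) {p p' : ZMod (2 * h)}
    (h1 : Nb s T A B (Sum.inl p) (Sum.inl p'))
    (h2 : Nb s T A B (Sum.inl (p + h)) (Sum.inl (p' + h))) (u v : ZMod (2 * h))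
    (huv : v = u + (p' - p)) :
    ∃ g : Fin h, Nb s (sh ((g : ℕ) : ZMod (2 * h)) ∘ T) (sh ((g : ℕ) : ZMod (2 * h)) ∘ A)
      (sh ((g : ℕ) : ZMod (2 * h)) ∘ B) (Sum.inl u) (Sum.inl v) := by
  obtain ⟨g, hg | hg⟩ := half hh u p
  · refine ⟨g, ?_⟩
    have := h1.map (sh ((g : ℕ) : ZMod (2 * h)))
    rw [sh_inl, sh_inl, hg, show p' + ((g : ℕ) : ZMod (2 * h)) = v by rw [huv, ← hg]; ring] at this
    exact this
  · refine ⟨g, ?_⟩
    have := h2.map (sh ((g : ℕ) : ZMod (2 * h)))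
    rw [sh_inl, sh_inl, hg, show p' + (h : ZMod (2 * h)) + ((g : ℕ) : ZMod (2 * h)) = v by
      rw [huv, ← hg]; ring] at this
    exact this

theorem cov_inf (hh : 0 < h) {p : ZMod (2 * h)} {w : W}
    (h1 : Nb s T A B (Sum.inl p) (Sum.inr w))
    (h2 : Nb s T A B (Sum.inl (p + h)) (Sum.inr w)) (u : ZMod (2 * h)) :
    ∃ g : Fin h, Nb s (sh ((g : ℕ) : ZMod (2 * h)) ∘ T) (sh ((g : ℕ) : ZMod (2 * h)) ∘ A)
      (sh ((g : ℕ) : ZMod (2 * h)) ∘ B) (Sum.inl u) (Sum.inr w) := by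
  obtain ⟨g, hg | hg⟩ := half hh u p
  · refine ⟨g, ?_⟩
    have := h1.map (sh ((g : ℕ) : ZMod (2 * h)))
    rwa [sh_inl, sh_inr, hg] at this
  · refine ⟨g, ?_⟩
    have := h2.map (sh ((g : ℕ) : ZMod (2 * h)))
    rwa [sh_inl, sh_inr, hg] at this

/-- two different elements differ by `d` or `-d` with `0 < d ≤ h` -/
theorem diff_cases (hh : 0 < h) (u v : ZMod (2 * h)) (huv : u ≠ v) :
    ∃ d : ℕ, 0 < d ∧ d ≤ h ∧ (v = u + (d : ZMod (2 * h)) ∨ u = v + (d : ZMod (2 * h))) := by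
  haveI : NeZero (2 * h) := ⟨by omega⟩
  have h1 := ZMod.val_lt (v - u)
  have h2 : (((v - u).val : ℕ) : ZMod (2 * h)) = v - u := ZMod.natCast_zmod_val _
  have h3 : (v - u).val ≠ 0 := by
    intro h'
    rw [ZMod.val_eq_zero] at h'
    exact huv (sub_eq_zero.1 h').symm
  rcases Nat.lt_or_ge h (v - u).val with h4 | h4
  · refine ⟨2 * h - (v - u).val, by omega, by omega, Or.inr ?_⟩
    rw [Nat.cast_sub (by omega), ZMod.natCast_self, h2]
    ring
  · refine ⟨(v - u).val, by omega, h4, Or.inl ?_⟩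
    rw [h2]
    ring

end

/-- **The case of a graceful cycle.** -/
theorem of_graceful {s : ℕ} (hs : 3 ≤ s) (c : ℕ → ℕ) (a : ℕ) (ha : a ≤ s)
    (hc : ∀ i, i < s → c i ≤ s) (hinj : ∀ i j, i < j → j < s → c i ≠ c j)
    (hca : ∀ i, i < s → c i ≠ a)
    (hd : ∀ d, 0 < d → d ≤ s → ∃ i, i < s ∧ (c ((i + 1) % s) = c i + d ∨ c i = c ((i + 1) % s) + d)) :
    ∃ F : Fin (s + 1) → SimpleGraph (Fin (2 * s + 3)),
      (∀ i, Nonempty (F i ≃g TwoFactor s)) ∧ ∀ u v, u ≠ v → ∃! i, (F i).Adj u v := by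
  haveI : NeZero (2 * (s + 1)) := ⟨by omega⟩
  have hh : 0 < s + 1 := by omega
  let T : ℕ → ZMod (2 * (s + 1)) ⊕ Unit := fun i =>
    if i = 0 then Sum.inr () else if i = 1 then Sum.inl ((a : ℕ) : ZMod (2 * (s + 1)))
      else Sum.inl ((a : ZMod (2 * (s + 1))) + ((s + 1 : ℕ) : ZMod (2 * (s + 1))))
  let A : ℕ → ZMod (2 * (s + 1)) ⊕ Unit := fun i => Sum.inl ((c i : ℕ) : ZMod (2 * (s + 1)))
  let B : ℕ → ZMod (2 * (s + 1)) ⊕ Unit := fun i =>
    Sum.inl (((c i : ℕ) : ZMod (2 * (s + 1))) + ((s + 1 : ℕ) : ZMod (2 * (s + 1))))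
  have hT0 : T 0 = Sum.inr () := rfl
  have hT1 : T 1 = Sum.inl ((a : ℕ) : ZMod (2 * (s + 1))) := rfl
  have hT2 : T 2 = Sum.inl ((a : ZMod (2 * (s + 1))) + ((s + 1 : ℕ) : ZMod (2 * (s + 1)))) := rfl
  have key : ∀ x y : ℕ, x ≤ s → y ≤ s → ((x : ℕ) : ZMod (2 * (s + 1))) = ((y : ℕ) : ZMod _) →
      x = y := fun x y hx hy h => cinj (by omega) (by omega) h
  have key2 : ∀ x y : ℕ, x ≤ s → y ≤ s →
      ((x : ℕ) : ZMod (2 * (s + 1))) ≠ ((y : ℕ) : ZMod _) + ((s + 1 : ℕ) : ZMod _) := by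
    intro x y hx hy h
    rw [← Nat.cast_add] at h
    have := cinj (by omega) (by omega) h
    omega
  have hbase : Injective (place s T A B) := by
    refine place_inj ?_ ?_ ?_ ?_ ?_ ?_
    · intro i j hij hj
      have : (i = 0 ∧ j = 1) ∨ (i = 0 ∧ j = 2) ∨ (i = 1 ∧ j = 2) := by omega
      rcases this with ⟨rfl, rfl⟩ | ⟨rfl, rfl⟩ | ⟨rfl, rfl⟩
      · rw [hT0, hT1]; simp
      · rw [hT0, hT2]; simp
      · rw [hT1, hT2]
        exact fun h => key2 a a ha ha (Sum.inl_injective h)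
    · intro i j hij hj h
      exact hinj i j hij hj (key _ _ (hc i (by omega)) (hc j hj) (Sum.inl_injective h))
    · intro i j hij hj h
      exact hinj i j hij hj (key _ _ (hc i (by omega)) (hc j hj)
        (add_right_cancel (Sum.inl_injective h)))
    · intro i j hi hj h
      have : i = 0 ∨ i = 1 ∨ i = 2 := by omega
      rcases this with rfl | rfl | rfl
      · rw [hT0] at h; simp [A] at h
      · rw [hT1] at h
        exact hca j hj (key _ _ ha (hc j hj) (Sum.inl_injective h)).symm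
      · rw [hT2] at h
        exact key2 _ _ (hc j hj) ha (Sum.inl_injective h).symm
    · intro i j hi hj h
      have : i = 0 ∨ i = 1 ∨ i = 2 := by omega
      rcases this with rfl | rfl | rfl
      · rw [hT0] at h; simp [B] at h
      · rw [hT1] at h
        exact key2 _ _ ha (hc j hj) (Sum.inl_injective h)
      · rw [hT2] at h
        exact hca j hj (key _ _ ha (hc j hj) (add_right_cancel (Sum.inl_injective h))).symm
    · intro i j hi hj h
      exact key2 _ _ (hc i hi) (hc j hj) (Sum.inl_injective h)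
  refine main_seq (K := Fin (s + 1)) hs ?_ ?_
    (fun g => sh ((g : ℕ) : ZMod (2 * (s + 1))) ∘ T) (fun g => sh ((g : ℕ) : ZMod (2 * (s + 1))) ∘ A)
    (fun g => sh ((g : ℕ) : ZMod (2 * (s + 1))) ∘ B) ?_ ?_
  · rw [Fintype.card_sum, ZMod.card, Fintype.card_unit]
    ring
  · simp
  · intro g
    rw [place_comp]
    exact (sh_inj _).comp hbase
  · -- the triangle
    have e1 : Nb s T A B (Sum.inr ()) (Sum.inl ((a : ℕ) : ZMod (2 * (s + 1)))) :=
      nbT (A := A) (B := B) (T := T) 0 (by norm_num)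
    have e2 : Nb s T A B (Sum.inl ((a : ℕ) : ZMod (2 * (s + 1))))
        (Sum.inl ((a : ZMod (2 * (s + 1))) + ((s + 1 : ℕ) : ZMod (2 * (s + 1))))) :=
      nbT (A := A) (B := B) (T := T) 1 (by norm_num)
    have e3 : Nb s T A B (Sum.inl ((a : ZMod (2 * (s + 1))) + ((s + 1 : ℕ) : ZMod (2 * (s + 1)))))
        (Sum.inr ()) :=
      nbT (A := A) (B := B) (T := T) 2 (by norm_num)
    have hinf : ∀ u : ZMod (2 * (s + 1)), ∃ g : Fin (s + 1),
        Nb s (sh ((g : ℕ) : ZMod (2 * (s + 1))) ∘ T) (sh ((g : ℕ) : ZMod (2 * (s + 1))) ∘ A)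
      (sh ((g : ℕ) : ZMod (2 * (s + 1))) ∘ B) (Sum.inl u) (Sum.inr ()) := fun u =>
      cov_inf hh e1.symm e3 u
    have hfin : ∀ (u v : ZMod (2 * (s + 1))) (d : ℕ), 0 < d → d ≤ s + 1 →
        v = u + ((d : ℕ) : ZMod (2 * (s + 1))) → ∃ g : Fin (s + 1),
        Nb s (sh ((g : ℕ) : ZMod (2 * (s + 1))) ∘ T) (sh ((g : ℕ) : ZMod (2 * (s + 1))) ∘ A)
      (sh ((g : ℕ) : ZMod (2 * (s + 1))) ∘ B) (Sum.inl u) (Sum.inl v) := by
      intro u v d hd0 hds huv
      rcases Nat.lt_or_ge s d with h' | h'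
      · have hd1 : d = s + 1 := by omega
        refine cov_pair hh (p := ((a : ℕ) : ZMod (2 * (s + 1)))) e2 ?_ u v ?_
        · have := e2.symm
          rwa [show ((a : ℕ) : ZMod (2 * (s + 1))) + ((s + 1 : ℕ) : ZMod (2 * (s + 1))) +
            ((s + 1 : ℕ) : ZMod (2 * (s + 1))) = ((a : ℕ) : ZMod (2 * (s + 1))) by
              rw [add_assoc, two_half, add_zero]]
        · rw [huv, hd1]
          ring
      · obtain ⟨i, hi, hor⟩ := hd d hd0 h'
        have f1 : Nb s T A B (Sum.inl ((c i : ℕ) : ZMod (2 * (s + 1))))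
          (Sum.inl ((c ((i + 1) % s) : ℕ) : ZMod (2 * (s + 1)))) :=
            nbA (T := T) (A := A) (B := B) hs i hi
        have f2 : Nb s T A B
          (Sum.inl (((c i : ℕ) : ZMod (2 * (s + 1))) + ((s + 1 : ℕ) : ZMod (2 * (s + 1)))))
          (Sum.inl (((c ((i + 1) % s) : ℕ) : ZMod (2 * (s + 1))) +
            ((s + 1 : ℕ) : ZMod (2 * (s + 1))))) :=
            nbB (T := T) (A := A) (B := B) hs i hi
        rcases hor with hor | hor
        · refine cov_pair hh f1 f2 u v ?_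
          rw [huv, hor]
          push_cast
          ring
        · refine cov_pair hh f1.symm f2.symm u v ?_
          rw [huv, hor]
          push_cast
          ring
    rintro (u | u) (v | v) huv
    · obtain ⟨d, h1, h2, h3 | h3⟩ := diff_cases hh u v (fun h => huv (by rw [h]))
      · exact hfin u v d h1 h2 h3
      · obtain ⟨g, hg⟩ := hfin v u d h1 h2 h3
        exact ⟨g, hg.symm⟩
    · exact hinf u
    · obtain ⟨g, hg⟩ := hinf v
      exact ⟨g, hg.symm⟩
    · exact absurd rfl huv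

/-- the graceful labelling of the cycle of length `4 q` (Rosa) -/
def rosa (q i : ℕ) : ℕ :=
  if i % 2 = 0 then i / 2 else if i < 2 * q then 4 * q - i / 2 else 4 * q - 1 - i / 2

theorem case_zero (q : ℕ) (hq : 1 ≤ q) :
    ∃ F : Fin (4 * q + 1) → SimpleGraph (Fin (2 * (4 * q) + 3)),
      (∀ i, Nonempty (F i ≃g TwoFactor (4 * q))) ∧ ∀ u v, u ≠ v → ∃! i, (F i).Adj u v := by
  refine of_graceful (by omega) (rosa q) (3 * q) (by omega) ?_ ?_ ?_ ?_
  · intro i hi
    unfold rosa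
    split_ifs <;> omega
  · intro i j hij hj
    unfold rosa
    split_ifs <;> omega
  · intro i hi
    unfold rosa
    split_ifs <;> omega
  · intro d hd hd'
    rcases Nat.lt_trichotomy d (2 * q) with h | h | h
    · refine ⟨4 * q - 1 - d, by omega, ?_⟩
      rw [Nat.mod_eq_of_lt (by omega)]
      unfold rosa
      split_ifs <;> omega
    · refine ⟨4 * q - 1, by omega, ?_⟩
      rw [show (4 * q - 1 + 1) % (4 * q) = 0 by
        rw [show 4 * q - 1 + 1 = 4 * q by omega, Nat.mod_self]]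
      unfold rosa
      split_ifs <;> omega
    · refine ⟨4 * q - d, by omega, ?_⟩
      rw [Nat.mod_eq_of_lt (by omega)]
      unfold rosa
      split_ifs <;> omega

end Pool.Agent.V1149.OP3
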