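import Pool.Agent.V1149.OP3.Even

/-!
`OP(3, s, s)` for `s ≡ 2 mod 4`: the vertices are `ℤ_(2s)` and three fixed points, and the
2-factors are one fixed 2-factor and the `s` translates of a 2-factor fixed by adding `s`.
-/

set_option autoImplicit false

namespace Pool.Agent.V1149.OP3

open SimpleGraph Function

/-- two numbers below `2 s` are not congruent modulo `s` -/
def Dif (s m n : ℕ) : Prop := m ≠ n ∧ m ≠ n + s ∧ n ≠ m + s

/-- two numbers differ by `d` modulo `2 s`, up to sign -/
def Gap (s d m n : ℕ) : Prop := n = m + d ∨ n + 2 * s = m + d ∨ m = n + d ∨ m + 2 * s = n + d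

theorem dif_cast {s m n : ℕ} (hm : m < 2 * s) (hn : n < 2 * s) (h : Dif s m n) :
    (m : ZMod (2 * s)) ≠ n ∧ (m : ZMod (2 * s)) ≠ n + s ∧ (n : ZMod (2 * s)) ≠ m + s := by
  have key : ∀ m n : ℕ, m < 2 * s → n < 2 * s → m ≠ n + s → n ≠ m + s →
      (m : ZMod (2 * s)) ≠ n + s := by
    intro m n hm hn h1 h2 h3
    rcases Nat.lt_or_ge n s with h4 | h4
    · rw [← Nat.cast_add] at h3
      exact h1 (cinj hm (by omega) h3)
    · have h5 : (n : ZMod (2 * s)) + s = ((n - s : ℕ) : ZMod (2 * s)) := by
        rw [Nat.cast_sub h4]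
        have := two_half (h := s)
        linear_combination this
      rw [h5] at h3
      have := cinj hm (by omega) h3
      omega
  refine ⟨fun h' => h.1 (cinj hm hn h'), key m n hm hn h.2.1 h.2.2, key n m hn hm h.2.2 h.2.1⟩

theorem gap_cast {s d m n : ℕ} (h : Gap s d m n) :
    ((n : ZMod (2 * s)) - m = d) ∨ ((m : ZMod (2 * s)) - n = d) := by
  have h0 : ((2 * s : ℕ) : ZMod (2 * s)) = 0 := ZMod.natCast_self _
  have key : ∀ m n : ℕ, (n = m + d ∨ n + 2 * s = m + d) → (n : ZMod (2 * s)) - m = d := by
    intro m n h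
    rcases h with h | h
    · rw [h]; push_cast; ring
    · have := congrArg (Nat.cast (R := ZMod (2 * s))) h
      rw [Nat.cast_add, h0, add_zero, Nat.cast_add] at this
      rw [this]; ring
  rcases h with h | h | h | h
  · exact Or.inl (key m n (Or.inl h))
  · exact Or.inl (key m n (Or.inr h))
  · exact Or.inr (key n m (Or.inl h))
  · exact Or.inr (key n m (Or.inr h))

/-- **The criterion for factors of this shape.** -/
theorem of_two {r s : ℕ} (hr : 3 ≤ r) (hs2 : s = 2 * r) (x : ℕ) (p b : ℕ → ℕ) (δ' η κ : ℕ)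
    (hη : δ' * η = κ * s + 1) (hx : x < s) (hp : ∀ i, i + 1 < r → p i < 2 * s)
    (hb : ∀ i, i < r → b i < 2 * s)
    (hpp : ∀ i j, i < j → j + 1 < r → Dif s (p i) (p j))
    (hbb : ∀ i j, i < j → j < r → Dif s (b i) (b j))
    (hpb : ∀ i j, i + 1 < r → j < r → Dif s (p i) (b j))
    (hxp : ∀ i, i + 1 < r → Dif s x (p i)) (hxb : ∀ i, i < r → Dif s x (b i))
    (hd : ∀ d, 0 < d → d < s → d ≠ 2 * δ' →
      (∃ i, i + 2 < r ∧ Gap s d (p i) (p (i + 1))) ∨
      (∃ i, i + 1 < r ∧ Gap s d (b i) (b (i + 1))) ∨ Gap s d (b (r - 1)) (b 0 + s)) :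
    ∃ F : Fin (s + 1) → SimpleGraph (Fin (2 * s + 3)),
      (∀ i, Nonempty (F i ≃g TwoFactor s)) ∧ ∀ u v, u ≠ v → ∃! i, (F i).Adj u v := by
  have hs : 3 ≤ s := by omega
  have hh : 0 < s := by omega
  have hne : NeZero (2 * s) := ⟨by omega⟩
  have hth : (s : ZMod (2 * s)) + (s : ZMod (2 * s)) = 0 := two_half
  let T : ℕ → ZMod (2 * s) ⊕ Fin 3 := fun i =>
    if i = 0 then Sum.inr 0 else if i = 1 then Sum.inl (x : ZMod (2 * s))
      else Sum.inl ((x : ZMod (2 * s)) + s)
  let A : ℕ → ZMod (2 * s) ⊕ Fin 3 := fun i =>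
    if i = 0 then Sum.inr 1 else if i = r then Sum.inr 2
      else if i < r then Sum.inl ((p (i - 1) : ℕ) : ZMod (2 * s))
      else Sum.inl (((p (2 * r - 1 - i) : ℕ) : ZMod (2 * s)) + s)
  let B : ℕ → ZMod (2 * s) ⊕ Fin 3 := fun i =>
    if i < r then Sum.inl ((b i : ℕ) : ZMod (2 * s))
      else Sum.inl (((b (i - r) : ℕ) : ZMod (2 * s)) + s)
  let T0 : ℕ → ZMod (2 * s) ⊕ Fin 3 := fun i => Sum.inr (Fin.ofNat 3 i)
  let A0 : ℕ → ZMod (2 * s) ⊕ Fin 3 := fun i => Sum.inl ((2 * δ' * i : ℕ) : ZMod (2 * s))
  let B0 : ℕ → ZMod (2 * s) ⊕ Fin 3 := fun i => Sum.inl ((2 * δ' * i + 1 : ℕ) : ZMod (2 * s))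
  have hmod : ∀ n : ℕ, ((2 * δ' * (n % s) : ℕ) : ZMod (2 * s)) = ((2 * δ' * n : ℕ) : ZMod _) := by
    intro n
    rw [ZMod.natCast_eq_natCast_iff, mul_assoc, mul_assoc]
    exact ((Nat.mod_modEq n s).mul_left δ').mul_left' 2
  have hinv : ∀ n : ℕ, ((2 * δ' * (η * n) : ℕ) : ZMod (2 * s)) = ((2 * n : ℕ) : ZMod _) := by
    intro n
    have h0 : ((2 * s : ℕ) : ZMod (2 * s)) = 0 := ZMod.natCast_self _
    have h1 : 2 * δ' * (η * n) = (2 * s) * (κ * n) + 2 * n := by
      calc 2 * δ' * (η * n) = 2 * (δ' * η) * n := by ring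
        _ = 2 * (κ * s + 1) * n := by rw [hη]
        _ = (2 * s) * (κ * n) + 2 * n := by ring
    rw [h1, Nat.cast_add, Nat.cast_mul, h0, zero_mul, zero_add]
  have hcan : ∀ i j : ℕ, i < s → j < s →
      ((2 * δ' * i : ℕ) : ZMod (2 * s)) = ((2 * δ' * j : ℕ) : ZMod (2 * s)) → i = j := by
    intro i j hi hj h
    rw [ZMod.natCast_eq_natCast_iff, mul_assoc, mul_assoc] at h
    have h1 : δ' * i ≡ δ' * j [MOD s] := Nat.ModEq.mul_left_cancel' (by norm_num) h
    have h2 := h1.mul_left η
    have h3 : ∀ n, η * (δ' * n) ≡ n [MOD s] := by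
      intro n
      have : η * (δ' * n) = s * (κ * n) + n := by
        calc η * (δ' * n) = (δ' * η) * n := by ring
          _ = (κ * s + 1) * n := by rw [hη]
          _ = s * (κ * n) + n := by ring
      rw [this]
      exact (Nat.mul_add_mod _ _ _)
    have h4 : i ≡ j [MOD s] := ((h3 i).symm.trans h2).trans (h3 j)
    exact Nat.ModEq.eq_of_lt_of_lt h4 hi hj
  have hbase0 : Injective (place s T0 A0 B0) := by
    refine place_inj ?_ ?_ ?_ ?_ ?_ ?_
    · intro i j hij hj h
      have h1 := congrArg Fin.val (Sum.inr_injective h)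
      simp only [Fin.ofNat] at h1
      omega
    · intro i j hij hj h
      have := hcan i j (by omega) hj (Sum.inl_injective h)
      omega
    · intro i j hij hj h
      have h1 : ((2 * δ' * i + 1 : ℕ) : ZMod (2 * s)) = ((2 * δ' * j + 1 : ℕ) : ZMod (2 * s)) :=
        Sum.inl_injective h
      rw [Nat.cast_add, Nat.cast_add] at h1
      have := hcan i j (by omega) hj (add_right_cancel h1)
      omega
    · intro i j hi hj h
      simp [T0, A0] at h
    · intro i j hi hj h
      simp [T0, B0] at h
    · intro i j hi hj h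
      have h1 : ((2 * δ' * i : ℕ) : ZMod (2 * s)) = ((2 * δ' * j + 1 : ℕ) : ZMod (2 * s)) :=
        Sum.inl_injective h
      rw [ZMod.natCast_eq_natCast_iff] at h1
      have h2 : 2 * δ' * i ≡ 2 * δ' * j + 1 [MOD 2] := Nat.ModEq.of_mul_right s h1
      unfold Nat.ModEq at h2
      rw [mul_assoc, mul_assoc] at h2
      omega
  have hself : ∀ m : ZMod (2 * s), m ≠ m + s := by
    intro m h
    have h1 : (s : ZMod (2 * s)) = ((0 : ℕ) : ZMod (2 * s)) := by
      rw [Nat.cast_zero]
      exact (left_eq_add.1 h)
    have := cinj (by omega) (by omega) h1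
    omega
  have dpp : ∀ i j, i + 1 < r → j + 1 < r → i ≠ j → Dif s (p i) (p j) := by
    intro i j hi hj hij
    rcases Nat.lt_or_gt_of_ne hij with h | h
    · exact hpp i j h hj
    · have := hpp j i h hi
      exact ⟨this.1.symm, this.2.2, this.2.1⟩
  have hbase : Injective (place s T A B) := by
    have cpp : ∀ i j, i + 1 < r → j + 1 < r → i ≠ j → _ := fun i j hi hj hij =>
      dif_cast (hp i hi) (hp j hj) (dpp i j hi hj hij)
    have cbb : ∀ i j, i < j → j < r → _ := fun i j hij hj =>
      dif_cast (hb i (by omega)) (hb j hj) (hbb i j hij hj)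
    have cpb : ∀ i j, i + 1 < r → j < r → _ := fun i j hi hj =>
      dif_cast (hp i hi) (hb j hj) (hpb i j hi hj)
    have cxp : ∀ i, i + 1 < r → _ := fun i hi =>
      dif_cast (show x < 2 * s by omega) (hp i hi) (hxp i hi)
    have cxb : ∀ i, i < r → _ := fun i hi =>
      dif_cast (show x < 2 * s by omega) (hb i hi) (hxb i hi)
    refine place_inj ?_ ?_ ?_ ?_ ?_ ?_
    · intro i j hij hj
      have : (i = 0 ∧ j = 1) ∨ (i = 0 ∧ j = 2) ∨ (i = 1 ∧ j = 2) := by omega
      rcases this with ⟨rfl, rfl⟩ | ⟨rfl, rfl⟩ | ⟨rfl, rfl⟩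
      · simp [T]
      · simp [T]
      · intro h
        exact hself _ (Sum.inl_injective h)
    · intro i j hij hj
      simp only [A]
      split_ifs <;> intro h
      all_goals first
        | omega
        | (simp at h; done)
        | skip
      · exact (cpp (i - 1) (j - 1) (by omega) (by omega) (by omega)).1 (Sum.inl_injective h)
      · rcases Nat.lt_trichotomy (i - 1) (2 * r - 1 - j) with h1 | h1 | h1
        · exact (cpp (i - 1) (2 * r - 1 - j) (by omega) (by omega) (by omega)).2.1
            (Sum.inl_injective h)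
        · rw [← h1] at h
          exact hself _ (Sum.inl_injective h)
        · exact (cpp (i - 1) (2 * r - 1 - j) (by omega) (by omega) (by omega)).2.1
            (Sum.inl_injective h)
      · exact (cpp (2 * r - 1 - i) (2 * r - 1 - j) (by omega) (by omega) (by omega)).1
          (add_right_cancel (Sum.inl_injective h))
    · intro i j hij hj
      simp only [B]
      split_ifs <;> intro h
      all_goals first
        | omega
        | skip
      · exact (cbb i j hij (by omega)).1 (Sum.inl_injective h)
      · rcases Nat.lt_trichotomy i (j - r) with h1 | h1 | h1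
        · exact (cbb i (j - r) h1 (by omega)).2.1 (Sum.inl_injective h)
        · rw [← h1] at h
          exact hself _ (Sum.inl_injective h)
        · exact (cbb (j - r) i h1 (by omega)).2.2 (Sum.inl_injective h)
      · exact (cbb (i - r) (j - r) (by omega) (by omega)).1
          (add_right_cancel (Sum.inl_injective h))
    · intro i j hi hj
      have : i = 0 ∨ i = 1 ∨ i = 2 := by omega
      rcases this with rfl | rfl | rfl
      · simp only [T, A]
        split_ifs <;> simp
      · simp only [T, A]
        split_ifs <;> intro h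
        all_goals first
          | omega
          | (simp at h; done)
          | skip
        · exact (cxp (j - 1) (by omega)).1 (Sum.inl_injective h)
        · exact (cxp (2 * r - 1 - j) (by omega)).2.1 (Sum.inl_injective h)
      · simp only [T, A]
        split_ifs <;> intro h
        all_goals first
          | omega
          | (simp at h; done)
          | skip
        · exact (cxp (j - 1) (by omega)).2.2 (Sum.inl_injective h).symm
        · exact (cxp (2 * r - 1 - j) (by omega)).1 (add_right_cancel (Sum.inl_injective h))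
    · intro i j hi hj
      have : i = 0 ∨ i = 1 ∨ i = 2 := by omega
      rcases this with rfl | rfl | rfl
      · simp only [T, B]
        split_ifs <;> simp
      · simp only [T, B]
        split_ifs <;> intro h
        all_goals first
          | omega
          | skip
        · exact (cxb j (by omega)).1 (Sum.inl_injective h)
        · exact (cxb (j - r) (by omega)).2.1 (Sum.inl_injective h)
      · simp only [T, B]
        split_ifs <;> intro h
        all_goals first
          | omega
          | skip
        · exact (cxb j (by omega)).2.2 (Sum.inl_injective h).symm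
        · exact (cxb (j - r) (by omega)).1 (add_right_cancel (Sum.inl_injective h))
    · intro i j hi hj
      simp only [A, B]
      split_ifs <;> intro h
      all_goals first
        | omega
        | (simp at h; done)
        | skip
      · exact (cpb (i - 1) j (by omega) (by omega)).1 (Sum.inl_injective h)
      · exact (cpb (i - 1) (j - r) (by omega) (by omega)).2.1 (Sum.inl_injective h)
      · exact (cpb (2 * r - 1 - i) j (by omega) (by omega)).2.2 (Sum.inl_injective h).symm
      · exact (cpb (2 * r - 1 - i) (j - r) (by omega) (by omega)).1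
          (add_right_cancel (Sum.inl_injective h))
  refine main_seq (K := Option (Fin s)) hs ?_ ?_
    (fun k => k.elim T0 (fun g => sh ((g : ℕ) : ZMod (2 * s)) ∘ T))
    (fun k => k.elim A0 (fun g => sh ((g : ℕ) : ZMod (2 * s)) ∘ A))
    (fun k => k.elim B0 (fun g => sh ((g : ℕ) : ZMod (2 * s)) ∘ B)) ?_ ?_
  · rw [Fintype.card_sum, ZMod.card, Fintype.card_fin]
  · rw [Fintype.card_option, Fintype.card_fin]
  · rintro (_ | g)
    · exact hbase0
    · show Injective (place s (sh _ ∘ T) (sh _ ∘ A) (sh _ ∘ B))
      rw [place_comp]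
      exact (sh_inj _).comp hbase
  · have hrot : ∀ u v : ZMod (2 * s) ⊕ Fin 3, (∃ g : Fin s, Nb s
        (sh ((g : ℕ) : ZMod (2 * s)) ∘ T) (sh ((g : ℕ) : ZMod (2 * s)) ∘ A)
        (sh ((g : ℕ) : ZMod (2 * s)) ∘ B) u v) → ∃ k : Option (Fin s), Nb s
        (k.elim T0 (fun g => sh ((g : ℕ) : ZMod (2 * s)) ∘ T))
        (k.elim A0 (fun g => sh ((g : ℕ) : ZMod (2 * s)) ∘ A))
        (k.elim B0 (fun g => sh ((g : ℕ) : ZMod (2 * s)) ∘ B)) u v :=
      fun u v ⟨g, hg⟩ => ⟨some g, hg⟩
    have hT1 : T 1 = Sum.inl (x : ZMod (2 * s)) := rfl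
    have hT2 : T 2 = Sum.inl ((x : ZMod (2 * s)) + s) := rfl
    have hT0 : T 0 = Sum.inr 0 := rfl
    have hA0 : A 0 = Sum.inr 1 := rfl
    have hAr : A r = Sum.inr 2 := by
      simp only [A]
      rw [if_neg (by omega), if_pos trivial]
    have hAp : ∀ i, 0 < i → i < r → A i = Sum.inl ((p (i - 1) : ℕ) : ZMod (2 * s)) := by
      intro i h1 h2
      simp only [A]
      rw [if_neg (by omega), if_neg (by omega), if_pos h2]
    have hAq : ∀ i, r < i → i < s →
        A i = Sum.inl (((p (2 * r - 1 - i) : ℕ) : ZMod (2 * s)) + s) := by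
      intro i h1 h2
      simp only [A]
      rw [if_neg (by omega), if_neg (by omega), if_neg (by omega)]
    have hBb : ∀ i, i < r → B i = Sum.inl ((b i : ℕ) : ZMod (2 * s)) := by
      intro i h1
      simp only [B]
      rw [if_pos h1]
    have hBc : ∀ i, r ≤ i → i < s → B i = Sum.inl (((b (i - r) : ℕ) : ZMod (2 * s)) + s) := by
      intro i h1 h2
      simp only [B]
      rw [if_neg (by omega)]
    have hcancel : ∀ m : ZMod (2 * s), m + s + s = m := by
      intro m
      rw [add_assoc, hth, add_zero]
    -- infinite points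
    have hinf : ∀ (u : ZMod (2 * s)) (w : Fin 3), ∃ g : Fin s, Nb s
        (sh ((g : ℕ) : ZMod (2 * s)) ∘ T) (sh ((g : ℕ) : ZMod (2 * s)) ∘ A)
        (sh ((g : ℕ) : ZMod (2 * s)) ∘ B) (Sum.inl u) (Sum.inr w) := by
      intro u w
      fin_cases w
      · have e1 := nbT (s := s) (T := T) (A := A) (B := B) 0 (by norm_num)
        have e2 := nbT (s := s) (T := T) (A := A) (B := B) 2 (by norm_num)
        rw [show (0 + 1) % 3 = 1 by norm_num, hT0, hT1] at e1
        rw [show (2 + 1) % 3 = 0 by norm_num, hT0, hT2] at e2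
        exact cov_inf hh e1.symm e2 u
      · have e1 := nbA' (T := T) (A := A) (B := B) hs 0 (by omega)
        have e2 := nbA0 (T := T) (A := A) (B := B) hs
        rw [hA0, hAp 1 (by omega) (by omega)] at e1
        rw [hA0, hAq (s - 1) (by omega) (by omega), show 2 * r - 1 - (s - 1) = 1 - 1 by omega] at e2
        exact cov_inf hh e1.symm e2 u
      · have e1 := nbA' (T := T) (A := A) (B := B) hs (r - 1) (by omega)
        have e2 := nbA' (T := T) (A := A) (B := B) hs r (by omega)
        rw [show r - 1 + 1 = r by omega, hAr, hAp (r - 1) (by omega) (by omega)] at e1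
        rw [hAr, hAq (r + 1) (by omega) (by omega), show 2 * r - 1 - (r + 1) = r - 1 - 1 by omega]
          at e2
        exact cov_inf hh e1 e2.symm u
    -- edges with a gap
    have hgap : ∀ (m n : ℕ) (d : ℕ), Gap s d m n →
        Nb s T A B (Sum.inl (m : ZMod (2 * s))) (Sum.inl (n : ZMod (2 * s))) →
        Nb s T A B (Sum.inl ((m : ZMod (2 * s)) + s)) (Sum.inl ((n : ZMod (2 * s)) + s)) →
        ∀ u v : ZMod (2 * s), v = u + (d : ZMod (2 * s)) → ∃ g : Fin s, Nb s
        (sh ((g : ℕ) : ZMod (2 * s)) ∘ T) (sh ((g : ℕ) : ZMod (2 * s)) ∘ A)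
        (sh ((g : ℕ) : ZMod (2 * s)) ∘ B) (Sum.inl u) (Sum.inl v) := by
      intro m n d hg h1 h2 u v huv
      rcases gap_cast hg with h | h
      · exact cov_pair hh h1 h2 u v (by rw [h, huv])
      · exact cov_pair hh h1.symm h2.symm u v (by rw [h, huv])
    have hfin : ∀ (u v : ZMod (2 * s)) (d : ℕ), 0 < d → d ≤ s →
        v = u + ((d : ℕ) : ZMod (2 * s)) → ∃ k : Option (Fin s), Nb s
        (k.elim T0 (fun g => sh ((g : ℕ) : ZMod (2 * s)) ∘ T))
        (k.elim A0 (fun g => sh ((g : ℕ) : ZMod (2 * s)) ∘ A))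
        (k.elim B0 (fun g => sh ((g : ℕ) : ZMod (2 * s)) ∘ B)) (Sum.inl u) (Sum.inl v) := by
      intro u v d hd0 hds huv
      rcases Nat.lt_or_ge d s with hlt | hge
      · by_cases hdd : d = 2 * δ'
        · -- the fixed factor
          refine ⟨none, ?_⟩
          show Nb s T0 A0 B0 _ _
          have hu : ((u.val : ℕ) : ZMod (2 * s)) = u := ZMod.natCast_zmod_val _
          have hi : (η * (u.val / 2)) % s < s := Nat.mod_lt _ hh
          have k1 : ((2 * δ' * ((η * (u.val / 2)) % s) : ℕ) : ZMod (2 * s)) =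
              ((2 * (u.val / 2) : ℕ) : ZMod (2 * s)) := by rw [hmod, hinv]
          have k2 : ((2 * δ' * (((η * (u.val / 2)) % s + 1) % s) : ℕ) : ZMod (2 * s)) =
              ((2 * (u.val / 2) + d : ℕ) : ZMod (2 * s)) := by
            rw [hmod, mul_add, Nat.cast_add, k1, hdd, mul_one, Nat.cast_add]
          rcases Nat.mod_two_eq_zero_or_one u.val with hpar | hpar
          · have e := nbA (T := T0) (A := A0) (B := B0) hs _ hi
            have e1 : A0 ((η * (u.val / 2)) % s) = Sum.inl u := by
              show Sum.inl ((2 * δ' * ((η * (u.val / 2)) % s) : ℕ) : ZMod (2 * s)) = _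
              rw [k1, show 2 * (u.val / 2) = u.val by omega, hu]
            have e2 : A0 (((η * (u.val / 2)) % s + 1) % s) = Sum.inl v := by
              show Sum.inl ((2 * δ' * (((η * (u.val / 2)) % s + 1) % s) : ℕ) : ZMod (2 * s)) = _
              rw [k2, show 2 * (u.val / 2) + d = u.val + d by omega, Nat.cast_add, hu, huv]
            rwa [e1, e2] at e
          · have e := nbB (T := T0) (A := A0) (B := B0) hs _ hi
            have e1 : B0 ((η * (u.val / 2)) % s) = Sum.inl u := by
              show Sum.inl ((2 * δ' * ((η * (u.val / 2)) % s) + 1 : ℕ) : ZMod (2 * s)) = _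
              rw [Nat.cast_add, k1, ← Nat.cast_add, show 2 * (u.val / 2) + 1 = u.val by omega, hu]
            have e2 : B0 (((η * (u.val / 2)) % s + 1) % s) = Sum.inl v := by
              show Sum.inl ((2 * δ' * (((η * (u.val / 2)) % s + 1) % s) + 1 : ℕ) : ZMod (2 * s)) = _
              rw [Nat.cast_add, k2, ← Nat.cast_add,
                show 2 * (u.val / 2) + d + 1 = u.val + d by omega, Nat.cast_add, hu, huv]
            rwa [e1, e2] at e
        · apply hrot
          rcases hd d hd0 hlt hdd with ⟨i, hi, hg⟩ | ⟨i, hi, hg⟩ | hg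
          · have e1 := nbA' (T := T) (A := A) (B := B) hs (i + 1) (by omega)
            have e2 := nbA' (T := T) (A := A) (B := B) hs (2 * r - 2 - i) (by omega)
            rw [hAp (i + 1) (by omega) (by omega), hAp (i + 1 + 1) (by omega) (by omega),
              show i + 1 - 1 = i by omega, show i + 1 + 1 - 1 = i + 1 by omega] at e1
            rw [hAq (2 * r - 2 - i) (by omega) (by omega),
              hAq (2 * r - 2 - i + 1) (by omega) (by omega),
              show 2 * r - 1 - (2 * r - 2 - i) = i + 1 by omega,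
              show 2 * r - 1 - (2 * r - 2 - i + 1) = i by omega] at e2
            exact hgap _ _ d hg e1 e2.symm u v huv
          · have e1 := nbB' (T := T) (A := A) (B := B) hs i (by omega)
            have e2 := nbB' (T := T) (A := A) (B := B) hs (i + r) (by omega)
            rw [hBb i (by omega), hBb (i + 1) (by omega)] at e1
            rw [hBc (i + r) (by omega) (by omega), hBc (i + r + 1) (by omega) (by omega),
              show i + r - r = i by omega, show i + r + 1 - r = i + 1 by omega] at e2
            exact hgap _ _ d hg e1 e2 u v huv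
          · have e1 := nbB' (T := T) (A := A) (B := B) hs (r - 1) (by omega)
            have e2 := nbB0 (T := T) (A := A) (B := B) hs
            rw [show r - 1 + 1 = r by omega, hBb (r - 1) (by omega), hBc r le_rfl (by omega),
              show r - r = 0 by omega, ← Nat.cast_add] at e1
            rw [hBc (s - 1) (by omega) (by omega), hBb 0 (by omega),
              show s - 1 - r = r - 1 by omega] at e2
            refine hgap _ _ d hg e1 ?_ u v huv
            rw [show (((b 0 + s : ℕ) : ZMod (2 * s)) + s) = ((b 0 : ℕ) : ZMod (2 * s)) by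
              rw [Nat.cast_add, hcancel]]
            exact e2
      · have hds' : d = s := by omega
        apply hrot
        have e := nbT (s := s) (T := T) (A := A) (B := B) 1 (by norm_num)
        rw [show (1 + 1) % 3 = 2 by norm_num, hT1, hT2] at e
        refine cov_pair hh e ?_ u v ?_
        · have e' := e.symm
          rwa [hcancel]
        · rw [huv, hds']
          ring
    rintro (u | w) (v | w') huv
    · obtain ⟨d, h1, h2, h3 | h3⟩ := diff_cases hh u v (fun h => huv (by rw [h]))
      · exact hfin u v d h1 h2 h3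
      · obtain ⟨k, hk⟩ := hfin v u d h1 h2 h3
        exact ⟨k, hk.symm⟩
    · exact hrot _ _ (hinf u w')
    · obtain ⟨g, hg⟩ := hinf v w
      exact hrot _ _ ⟨g, hg.symm⟩
    · refine ⟨none, ?_⟩
      show Nb s T0 A0 B0 _ _
      have e0 := nbT (s := s) (T := T0) (A := A0) (B := B0) 0 (by norm_num)
      have e1 := nbT (s := s) (T := T0) (A := A0) (B := B0) 1 (by norm_num)
      have e2 := nbT (s := s) (T := T0) (A := A0) (B := B0) 2 (by norm_num)
      have f0 : T0 0 = Sum.inr 0 := rfl
      have f1 : T0 1 = Sum.inr 1 := rfl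
      have f2 : T0 2 = Sum.inr 2 := rfl
      rw [show (0 + 1) % 3 = 1 by norm_num, f0, f1] at e0
      rw [show (1 + 1) % 3 = 2 by norm_num, f1, f2] at e1
      rw [show (2 + 1) % 3 = 0 by norm_num, f2, f0] at e2
      fin_cases w <;> fin_cases w'
      · exact absurd rfl huv
      · exact e0
      · exact e2.symm
      · exact e0.symm
      · exact absurd rfl huv
      · exact e1
      · exact e2
      · exact e1.symm
      · exact absurd rfl huv

end Pool.Agent.V1149.OP3
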